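import Pool.Agent.P.MP_f8f34d_lc.N.Left

/-! Uniformly arithmetical relations and the omega jump. -/

namespace Pool.Agent.MinDeg

open Pool.Agent.Lib.ComputableProp

variable {α β : Type} [Primcodable α] [Primcodable β]

/-- many-one reducible to the `m`-th jump, uniformly in the oracle -/
def ArN (m : ℕ) (P : CS → α → Prop) : Prop :=
  ∃ g : α → ℕ, Computable g ∧ ∀ z a, (jp^[m] z (g a) = true ↔ P z a)

/-- uniformly arithmetical -/
def Ar (P : CS → α → Prop) : Prop := ∃ m, ArN m P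

theorem Sig.jpb {S : CS → α → Prop} (h : Sig S) :
    ∃ g : α → ℕ, Computable g ∧ ∀ y a, (jp y (g a) = true ↔ S y a) := by
  obtain ⟨e, he⟩ := h.index
  exact ⟨fun a => Nat.pair e (Encodable.encode a), by fun_prop, fun y a => by rw [he]; simp [jp]⟩

theorem ArN.of_sig {m : ℕ} {S P : CS → α → Prop} (h : Sig S)
    (H : ∀ z a, S (jp^[m] z) a ↔ P z a) : ArN (m + 1) P := by
  obtain ⟨g, hg, k⟩ := h.jpb
  exact ⟨g, hg, fun z a => by rw [Function.iterate_succ_apply', k, H]⟩

theorem ArN.up {m n : ℕ} {P : CS → α → Prop} (h : ArN m P) (hn : m ≤ n) : ArN n P := by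
  induction hn with
  | refl => exact h
  | step _ ih =>
    obtain ⟨g, hg, k⟩ := ih
    exact ArN.of_sig (Sig.bit hg (Computable.const true)) k

theorem Sig.ar {P : CS → α → Prop} (h : Sig P) : Ar P :=
  ⟨1, ArN.of_sig (m := 0) h fun _ _ => Iff.rfl⟩

theorem CM.jpn {F : CS → α → CS} (h : CM F) (m : ℕ) :
    ∃ G : CS → α → CS, CM G ∧ ∀ z a, jp^[m] (F z a) = G (jp^[m] z) a := by
  induction m with
  | zero => exact ⟨F, h, fun _ _ => rfl⟩
  | succ m ih =>
    obtain ⟨G, hG, e⟩ := ih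
    obtain ⟨g, hg, k⟩ := (sig_Un.map (hG.comp (g := fun w : α × ℕ => w.1) Computable.fst)
      (g := fun w : α × ℕ => w.2) Computable.snd).jpb
    refine ⟨fun y a n => y (g (a, n)), CM.id.re (f := fun a n => g (a, n)) hg, fun z a => ?_⟩
    funext n
    rw [Function.iterate_succ_apply', Function.iterate_succ_apply', e, Bool.eq_iff_iff, k]
    simp [jp]

namespace Ar

theorem of_iff {P Q : CS → α → Prop} (h : Ar P) (H : ∀ x a, P x a ↔ Q x a) : Ar Q :=
  (funext fun x => funext fun a => propext (H x a) : P = Q) ▸ h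

theorem of_re {Q : α → Prop} (h : RE Q) : Ar (fun _ a => Q a) := (Sig.of_re h).ar

theorem not {P : CS → α → Prop} (h : Ar P) : Ar (fun z a => ¬ P z a) := by
  obtain ⟨m, g, hg, k⟩ := h
  exact ⟨m + 1, ArN.of_sig (Sig.bit hg (Computable.const false)) fun z a => by
    rw [← k, Bool.not_eq_true]⟩

theorem and {P Q : CS → α → Prop} (h : Ar P) (h' : Ar Q) : Ar (fun z a => P z a ∧ Q z a) := by
  obtain ⟨m, h⟩ := h
  obtain ⟨n, h'⟩ := h'
  obtain ⟨g, hg, k⟩ := h.up (le_max_left m n)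
  obtain ⟨g', hg', k'⟩ := h'.up (le_max_right m n)
  exact ⟨_, ArN.of_sig ((Sig.bit hg (Computable.const true)).and
    (Sig.bit hg' (Computable.const true))) fun z a => and_congr (k z a) (k' z a)⟩

theorem or {P Q : CS → α → Prop} (h : Ar P) (h' : Ar Q) : Ar (fun z a => P z a ∨ Q z a) :=
  (h.not.and h'.not).not.of_iff fun _ _ => by tauto

theorem imp {P Q : CS → α → Prop} (h : Ar P) (h' : Ar Q) : Ar (fun z a => P z a → Q z a) :=
  (h.and h'.not).not.of_iff fun _ _ => by tauto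

theorem ex {P : CS → α → β → Prop} (h : Ar (fun x (z : α × β) => P x z.1 z.2)) :
    Ar (fun x a => ∃ b, P x a b) := by
  obtain ⟨m, g, hg, k⟩ := h
  exact ⟨m + 1, ArN.of_sig (Sig.ex (P := fun y a b => y (g (a, b)) = true)
    (Sig.bit hg (Computable.const true))) fun z a => exists_congr fun b => k z (a, b)⟩

theorem all {P : CS → α → β → Prop} (h : Ar (fun x (z : α × β) => P x z.1 z.2)) :
    Ar (fun x a => ∀ b, P x a b) :=
  (ex (P := fun x a b => ¬ P x a b) h.not).not.of_iff fun _ _ => by simp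

theorem comp {P : CS → β → Prop} {f : α → β} (h : Ar P) (hf : Computable f) :
    Ar (fun x a => P x (f a)) := by
  obtain ⟨m, g, hg, k⟩ := h
  exact ⟨m, fun a => g (f a), hg.comp hf, fun z a => k z (f a)⟩

theorem map {P : CS → β → Prop} (h : Ar P) {F : CS → α → CS} (hF : CM F) {f : α → β}
    (hf : Computable f) : Ar (fun z a => P (F z a) (f a)) := by
  obtain ⟨m, g, hg, k⟩ := h
  obtain ⟨G, hG, e⟩ := hF.jpn m
  exact ⟨m + 1, ArN.of_sig (hG.bit (hg.comp hf) (Computable.const true)) fun z a => by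
    rw [← e, k]⟩

theorem jpn {P : CS → α → Prop} (h : Ar P) (n : ℕ) : Ar (fun z a => P (jp^[n] z) a) := by
  obtain ⟨m, g, hg, k⟩ := h
  exact ⟨m + n, g, hg, fun z a => by rw [Function.iterate_add_apply, k]⟩

theorem eq {f g : α → β} (hf : Computable f) (hg : Computable g) :
    Ar (fun (_ : CS) a => f a = g a) := of_re (RE.eq hf hg)

theorem lt {f g : α → ℕ} (hf : Computable f) (hg : Computable g) :
    Ar (fun (_ : CS) a => f a < g a) := of_re (RE.lt hf hg)

theorem mem {f : α → β} {l : α → List β} (hf : Computable f) (hl : Computable l) :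
    Ar (fun (_ : CS) a => f a ∈ l a) := of_re (RE.mem hf hl)

end Ar

theorem Pii.ar {P : CS → α → Prop} (h : Pii P) : Ar P :=
  (Sig.ar h).not.of_iff fun _ _ => not_not

/-- a map with uniformly arithmetical graph -/
def AF (F : CS → α → CS) : Prop := Ar (fun z (w : α × ℕ) => F z w.1 w.2 = true)

theorem CM.af {F : CS → α → CS} (h : CM F) : AF F :=
  ((h.comp (g := fun w : α × ℕ => w.1) Computable.fst).bit Computable.snd
    (Computable.const true)).ar

theorem AF.nf {F : CS → α → CS} (h : AF F) : ∃ (m : ℕ) (g : α × ℕ → ℕ), Computable g ∧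
    ∀ z a, F z a = fun n => jp^[m] z (g (a, n)) := by
  obtain ⟨m, g, hg, k⟩ := h
  exact ⟨m, g, hg, fun z a => funext fun n => Bool.eq_iff_iff.2 (k z (a, n)).symm⟩

theorem Ar.mapA {P : CS → β → Prop} (h : Ar P) {F : CS → α → CS} (hF : AF F) {f : α → β}
    (hf : Computable f) : Ar (fun z a => P (F z a) (f a)) := by
  obtain ⟨m, g, hg, k⟩ := hF.nf
  exact ((h.map (CM.id.re (f := fun a n => g (a, n)) hg) hf).jpn m).of_iff fun z a => by rw [k]

theorem AF.jn {F G : CS → α → CS} (hF : AF F) (hG : AF G) : AF (fun z a => jn (F z a) (G z a)) := by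
  have e : Ar (fun (_ : CS) (w : α × ℕ) => w.2 % 2 = 0) := Ar.eq (by fun_prop) (by fun_prop)
  have c : Computable fun w : α × ℕ => (w.1, w.2 / 2) := by fun_prop
  refine ((e.and (Ar.comp hF c)).or (e.not.and (Ar.comp hG c))).of_iff fun z w => ?_
  by_cases h : w.2 % 2 = 0 <;> simp [MinDeg.jn, h]

open Classical in
theorem Ar.af {P : CS → α → ℕ → Prop} (h : Ar (fun z (w : α × ℕ) => P z w.1 w.2)) :
    AF (fun z a n => decide (P z a n)) := h.of_iff fun _ _ => by simp

/-- inclusion of closed sections -/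
theorem ar_sub {P Q : CS → CS → α → Prop} (hP : Pii fun z a => P (lf z) (rt z) a)
    (hQ : Pii fun z a => Q (lf z) (rt z) a) : Ar fun A a => ∀ z, P A z a → Q A z a := by
  obtain ⟨S, -, h2, -, h4⟩ := Sig.stage hQ
  have h := Pii.exC (P := fun A z (w : α × ℕ) => P A z w.1 ∧ S (jn A z) w)
    ((hP.comp Computable.fst).and (h2.map (CM.id.lf.jn CM.id.rt) Computable.id))
  refine (Ar.all (P := fun A a (s : ℕ) => ¬ ∃ z, P A z a ∧ S (jn A z) (a, s))
    h.ar.not).of_iff fun A a => ⟨fun H z k => by_contra fun k' => ?_, fun H s ⟨z, k1, k2⟩ => ?_⟩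
  · obtain ⟨s, hs⟩ := (h4 (jn A z) a).1 (by simpa only [lf_jn, rt_jn] using k')
    exact H s ⟨z, k, hs⟩
  · have := (h4 (jn A z) a).2 ⟨s, k2⟩
    simp only [lf_jn, rt_jn] at this
    exact this (H z k1)

/-- leftmost points -/
theorem af_lm {P : CS → CS → α → Prop} (h : Pii fun z a => P (lf z) (rt z) a) :
    AF fun z a => lm {V | P z V a} := by
  have h1 : Ar fun z (w : (α × List Bool) × ℕ × Bool) =>
      ∃ V, P z V w.1.1 ∧ (∀ k < w.2.1, V k = w.1.2.getD k false) ∧ V w.2.1 = w.2.2 :=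
    (Pii.exC (P := fun z V (w : (α × List Bool) × ℕ × Bool) =>
      P z V w.1.1 ∧ (∀ k < w.2.1, V k = w.1.2.getD k false) ∧ V w.2.1 = w.2.2)
      ((h.comp (by fun_prop)).and ((Pii.all (Pii.imp
        (Sig.of_re (RE.lt (by fun_prop) (by fun_prop)))
        (Pii.bit CM.id.rt (by fun_prop) (by fun_prop)))).and
        (Pii.bit CM.id.rt (by fun_prop) (by fun_prop))))).ar
  refine (Ar.ex (P := fun z (w : α × ℕ) (σ : List Bool) =>
      (∃ V, P z V w.1 ∧ (∀ k < w.2, V k = σ.getD k false) ∧ V w.2 = true) ∧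
      (¬ ∃ V, P z V w.1 ∧ (∀ k < w.2, V k = σ.getD k false) ∧ V w.2 = false) ∧
      ∀ j, j < w.2 → σ.getD j false = true →
        ¬ ∃ V, P z V w.1 ∧ (∀ k < j, V k = σ.getD k false) ∧ V j = false)
    ((h1.comp (f := fun u : (α × ℕ) × List Bool => ((u.1.1, u.2), u.1.2, true)) (by fun_prop)).and
      ((h1.comp (f := fun u : (α × ℕ) × List Bool => ((u.1.1, u.2), u.1.2, false))
        (by fun_prop)).not.and (Ar.all ((Ar.lt (by fun_prop) (by fun_prop)).imp
          ((Ar.eq (by fun_prop) (by fun_prop)).imp (h1.comp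
            (f := fun u : ((α × ℕ) × List Bool) × ℕ => ((u.1.1.1, u.1.2), u.2, false))
            (by fun_prop)).not)))))).of_iff fun z w => ?_
  have hc : IsClosed {V | P z V w.1} := by
    have c : Continuous (jn z) := continuous_pi fun i => by
      unfold jn
      split_ifs
      exacts [continuous_const, continuous_apply _]
    simpa using (h.isClosed w.1).preimage c
  constructor
  · rintro ⟨σ, ⟨V, k1, k2, k3⟩, k4, k5⟩
    have hl := lm_spec hc ⟨V, k1⟩
    have key : ∀ j < w.2, lm {V | P z V w.1} j = σ.getD j false := fun j => by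
      induction j using Nat.strong_induction_on with
      | _ j ih =>
        intro hj
        have ih' : ∀ k < j, lm {V | P z V w.1} k = σ.getD k false :=
          fun k hk => ih k hk (hk.trans hj)
        rw [Bool.eq_iff_iff]
        exact ⟨fun e => (k2 j hj).symm.trans (hl.2 j e V k1 fun k hk =>
          (k2 k (hk.trans hj)).trans (ih' k hk).symm), fun e => by_contra fun c =>
            k5 j hj e ⟨_, hl.1, ih', by simpa using c⟩⟩
    exact by_contra fun c => k4 ⟨_, hl.1, key, by simpa using c⟩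
  · intro e
    have hn : {V | P z V w.1}.Nonempty := by
      by_contra c
      have : lm {V | P z V w.1} = zz := dif_neg fun ⟨U, hU⟩ => c ⟨U, hU.1⟩
      exact Bool.noConfusion ((congrFun this w.2).symm.trans e)
    have hl := lm_spec hc hn
    have g : ∀ k < w.2, (pre (lm {V | P z V w.1}) w.2).getD k false = lm {V | P z V w.1} k :=
      fun k hk => pre_getD _ hk
    refine ⟨pre (lm {V | P z V w.1}) w.2, ⟨_, hl.1, fun k hk => (g k hk).symm, e⟩, ?_, ?_⟩
    · rintro ⟨V, k1, k2, k3⟩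
      exact Bool.noConfusion (k3.symm.trans (hl.2 _ e V k1 fun k hk => (k2 k hk).trans (g k hk)))
    · rintro j hj ej ⟨V, k1, k2, k3⟩
      exact Bool.noConfusion (k3.symm.trans (hl.2 j ((g j hj).symm.trans ej) V k1
        fun k hk => (k2 k hk).trans (g k (hk.trans hj))))

/-- positive recursion along a rank -/
theorem ar_ind {B : CS → α × β → Prop} (hB : Ar B) {dep : α × β → List α} (hd : Computable dep)
    (rk : α → ℕ) (hr : ∀ p, ∀ y ∈ dep p, rk y < rk p.1) {M : CS → α → Prop}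
    (hM : ∀ z x, M z x ↔ ∃ w, B z (x, w) ∧ ∀ y ∈ dep (x, w), M z y) : Ar M := by
  have H : Ar fun z (x : α) => ∃ L : List (α × β), (∃ w, (x, w) ∈ L) ∧
      ∀ p, p ∈ L → B z p ∧ ∀ y, y ∈ dep p → ∃ w, (y, w) ∈ L := by
    refine Ar.ex (Ar.and (Ar.ex ?_) (Ar.all (Ar.imp ?_ (Ar.and (hB.comp Computable.snd)
      (Ar.all (Ar.imp ?_ (Ar.ex ?_)))))))
    all_goals exact Ar.mem (by fun_prop) (by fun_prop)
  refine H.of_iff fun z x => ⟨?_, ?_⟩
  · rintro ⟨L, h1, h2⟩
    induction hn : rk x using Nat.strong_induction_on generalizing x with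
    | _ n ih =>
      obtain ⟨w, hw⟩ := h1
      exact (hM z x).2 ⟨w, (h2 _ hw).1, fun y hy =>
        ih _ (hn ▸ hr _ y hy) y ((h2 _ hw).2 y hy) rfl⟩
  · intro h
    induction hn : rk x using Nat.strong_induction_on generalizing x with
    | _ n ih =>
      obtain ⟨w, h1, h2⟩ := (hM z x).1 h
      have key : ∀ l : List α, (∀ y ∈ l, y ∈ dep (x, w)) → ∃ L : List (α × β),
          (∀ y ∈ l, ∃ w, (y, w) ∈ L) ∧
          ∀ p, p ∈ L → B z p ∧ ∀ y, y ∈ dep p → ∃ w, (y, w) ∈ L := fun l => by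
        induction l with
        | nil => exact fun _ => ⟨[], by simp, by simp⟩
        | cons a l il =>
          intro hl
          obtain ⟨L, k1, k2⟩ := il fun y hy => hl y (List.mem_cons_of_mem _ hy)
          have ha := hl a List.mem_cons_self
          obtain ⟨L', ⟨v, k3⟩, k4⟩ := ih _ (hn ▸ hr _ a ha) a (h2 a ha) rfl
          refine ⟨L' ++ L, fun y hy => ?_, fun p hp => ?_⟩
          · rcases List.mem_cons.1 hy with rfl | hy
            · exact ⟨v, List.mem_append_left _ k3⟩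
            · exact (k1 y hy).imp fun _ c => List.mem_append_right _ c
          · rcases List.mem_append.1 hp with hp | hp
            · exact ⟨(k4 p hp).1, fun y hy =>
                ((k4 p hp).2 y hy).imp fun _ c => List.mem_append_left _ c⟩
            · exact ⟨(k2 p hp).1, fun y hy =>
                ((k2 p hp).2 y hy).imp fun _ c => List.mem_append_right _ c⟩
      obtain ⟨L, k1, k2⟩ := key _ fun y hy => hy
      refine ⟨(x, w) :: L, ⟨w, List.mem_cons_self⟩, fun p hp => ?_⟩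
      rcases List.mem_cons.1 hp with rfl | hp
      · exact ⟨h1, fun y hy => (k1 y hy).imp fun _ c => List.mem_cons_of_mem _ c⟩
      · exact ⟨(k2 p hp).1, fun y hy => ((k2 p hp).2 y hy).imp fun _ c => List.mem_cons_of_mem _ c⟩

/-- the omega jump -/
noncomputable def oj (z : CS) : CS := fun p => jp^[p.unpair.1] z p.unpair.2

theorem col_oj (z : CS) (k : ℕ) : col (oj z) k = jp^[k] z := by
  funext n
  simp [col, oj]

/-- `j` is an index that computes `A` from `B` -/
def Cp (j : ℕ) (B A : CS) : Prop := ∀ n b,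
  Un (Nat.pair j.unpair.1 (Encodable.encode (j.unpair.2, n, b))) B ↔ A n = b

theorem cp_of {S : CS → ℕ × ℕ × Bool → Prop} (h : Sig S) :
    ∃ e, ∀ j B A, (∀ n b, S B (j, n, b) ↔ A n = b) → Cp (Nat.pair e j) B A := by
  obtain ⟨e, he⟩ := h.index
  exact ⟨e, fun j B A H n b => by rw [Nat.unpair_pair, ← he, H]⟩

theorem sig_cp : Sig fun B (w : ℕ × ℕ × Bool) =>
    Un (Nat.pair w.1.unpair.1 (Encodable.encode (w.1.unpair.2, w.2.1, w.2.2))) B :=
  sig_Un.comp (by fun_prop)

theorem cp_re {g : ℕ → ℕ} (hg : Computable g) :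
    ∃ e, ∀ j B A, Cp j B A → Cp (Nat.pair e j) B fun n => A (g n) := by
  obtain ⟨e, he⟩ := cp_of (sig_cp.comp (f := fun w : ℕ × ℕ × Bool => (w.1, g w.2.1, w.2.2))
    (by fun_prop))
  exact ⟨e, fun j B A H => he j B _ fun n b => H (g n) b⟩

theorem cp_jp : ∃ e, ∀ j B A, Cp j B A → Cp (Nat.pair e j) (jp B) (jp A) := by
  obtain ⟨R, h1, -, h3⟩ := sig_Un
  have hS : Sig fun B (w : ℕ × ℕ) => ∃ σ : List Bool, (∀ k < σ.length, Un (Nat.pair w.1.unpair.1
      (Encodable.encode (w.1.unpair.2, k, σ.getD k false))) B) ∧ R σ w.2 :=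
    Sig.ex (Sig.and (Sig.forall_lt (by fun_prop) (sig_Un.comp (by fun_prop)))
      (Sig.of_re (h1.comp (f := fun u : (ℕ × ℕ) × List Bool => (u.2, u.1.2)) (by fun_prop))))
  obtain ⟨g, hg, k⟩ := hS.jpb
  obtain ⟨e, he⟩ := cp_of (Sig.bit (f := fun w : ℕ × ℕ × Bool => g (w.1, w.2.1))
    (g := fun w => w.2.2) (by fun_prop) (by fun_prop))
  refine ⟨e, fun j B A H => he j _ _ fun n b => ?_⟩
  have : jp B (g (j, n)) = jp A n := by
    rw [Bool.eq_iff_iff, k]
    unfold Cp at H
    simp only [H]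
    simp only [jp, decide_eq_true_eq, h3]
    exact ⟨fun ⟨σ, k1, k2⟩ => ⟨σ.length, by rwa [Ext.eq_pre k1]⟩,
      fun ⟨m, k1⟩ => ⟨_, ext_pre A m, k1⟩⟩
  rw [← this]

theorem cp_af {Γ : CS → CS} (h : AF fun y (_ : Unit) => Γ y) : ∃ (m : ℕ) (φ : ℕ → ℕ),
    Primrec φ ∧ ∀ j B A, Cp j B A → Cp (φ j) (jp^[m] B) (Γ A) := by
  obtain ⟨m, g, hg, k⟩ := h.nf
  obtain ⟨e1, h1⟩ := cp_jp
  obtain ⟨e2, h2⟩ := cp_re (g := fun n => g ((), n)) (by fun_prop)
  refine ⟨m, fun j => Nat.pair e2 ((Nat.pair e1)^[m] j), Primrec₂.natPair.comp (Primrec.const _)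
    (Primrec.nat_iterate (Primrec.const m) Primrec.id
      (Primrec₂.natPair.comp (Primrec.const e1) Primrec.snd).to₂), fun j B A H => ?_⟩
  rw [k A ()]
  refine h2 _ _ _ ?_
  clear k
  induction m with
  | zero => exact H
  | succ m ih =>
    simp only [Function.iterate_succ_apply']
    exact h1 _ _ _ ih

/-- iterates of an arithmetical operator are computable in the omega jump -/
theorem oj_iter {Y Γ Δ : CS → CS} (hY : AF fun y (_ : Unit) => Y y)
    (hΓ : AF fun y (_ : Unit) => Γ y) (hΔ : AF fun y (_ : Unit) => Δ y) (z : CS) :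
    CF (oj z) fun w : ℕ × ℕ => Δ (Γ^[w.1] (Y z)) w.2 := by
  obtain ⟨e, he⟩ := cp_of (Sig.bit (f := fun w : ℕ × ℕ × Bool => w.2.1) (g := fun w => w.2.2)
    (by fun_prop) (by fun_prop))
  obtain ⟨m0, φ0, -, h0⟩ := cp_af hY
  obtain ⟨m, φ, hφ, h1⟩ := cp_af hΓ
  obtain ⟨m2, φ2, hφ2, h2⟩ := cp_af hΔ
  have key : ∀ k, Cp (φ^[k] (φ0 (Nat.pair e 0))) (jp^[m * k + m0] z) (Γ^[k] (Y z)) := fun k => by
    induction k with
    | zero => simpa using h0 _ _ _ (he 0 z z fun _ _ => Iff.rfl)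
    | succ k ih =>
      have := h1 _ _ _ ih
      rwa [← Function.iterate_add_apply, ← Function.iterate_succ_apply' φ,
        ← Function.iterate_succ_apply' Γ, show m + (m * k + m0) = m * (k + 1) + m0 by ring] at this
  have hc : Computable fun k : ℕ => φ2 (φ^[k] (φ0 (Nat.pair e 0))) :=
    (hφ2.comp (Primrec.nat_iterate Primrec.id (Primrec.const _) (hφ.comp Primrec.snd).to₂)).to_comp
  refine ⟨_, sig_cp.map (CM.id.col (m := fun w : (ℕ × ℕ) × Bool => m2 + (m * w.1.1 + m0))
    (by fun_prop)) (g := fun w => (φ2 (φ^[w.1.1] (φ0 (Nat.pair e 0))), w.1.2, w.2))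
    (c_pair (hc.comp (by fun_prop)) (by fun_prop)), fun w => ?_⟩
  rw [col_oj, Function.iterate_add_apply]
  exact h2 _ _ _ (key w.1.1) w.1.2 w.2

end Pool.Agent.MinDeg
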