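import Pool.Agent.P.MP_f8f34d_lc.W.RepDef

namespace Pool.Agent.MinDeg

/-- The Turing jump: `i = ⟨e, x⟩` is in `jump A` iff program `e` returns `0` on the input
`⟨σ, x⟩` for some finite initial segment `σ` of the characteristic function of `A`. -/
def jump (A : Set ℕ) : Set ℕ :=
  {i | ∃ σ : List Bool, (∀ k < σ.length, (σ.getD k false = true ↔ k ∈ A)) ∧
    0 ∈ (Denumerable.ofNat Nat.Partrec.Code i.unpair.1).eval
      (Nat.pair (Encodable.encode σ) i.unpair.2)}

/-- The join of a sequence of sets. -/
def join (R : ℕ → Set ℕ) : Set ℕ := {p | p.unpair.2 ∈ R p.unpair.1}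

/-- The omega jump: the join of the finite jumps. -/
def omegaJump (A : Set ℕ) : Set ℕ := join fun k => jump^[k] A

open Classical in
/-- The Turing degree of (the characteristic function of) a set. -/
noncomputable def degS (A : Set ℕ) : TuringDegree :=
  toAntisymmetrization TuringReducible fun n => Part.some (if n ∈ A then 1 else 0)

end Pool.Agent.MinDeg
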