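import Pool.Agent.P.MP_f8f34d_lc.W.Rel

/-! The columns of the jump are the sets that are computably enumerable in the oracle. -/

namespace Pool.Agent.MinDeg

open Pool.Agent.Lib.ComputableProp

theorem oj_dom {S : CS → ℕ → Prop} (hS : Sig S) (y : CS) :
    ∃ f : ℕ →. ℕ, RecursiveIn {hat y} f ∧ ∀ m, (f m).Dom ↔ S y m := by
  obtain ⟨R, ⟨t, ht, h1⟩, -, h3⟩ := hS
  have hH : Computable (fun v : ℕ => cond (t (((Encodable.decode (α := List Bool) v.unpair.2).getD [],
      v.unpair.1.unpair.1), v.unpair.1.unpair.2.unpair.2)) 0 1) := by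
    have : Computable (fun v : ℕ => (Encodable.decode (α := List Bool) v.unpair.2).getD []) :=
      Computable.option_getD (by fun_prop) (Computable.const _)
    fun_prop
  have h4 := (TR.of_computable hH).comp (TR.pair (TR.of_computable Computable.id)
    ((tr_pre y).comp (TR.of_computable (f := fun w : ℕ => w.unpair.2.unpair.1) (by fun_prop))))
  simp only [Nat.unpair_pair, Encodable.encodek, Option.getD_some, id] at h4
  refine ⟨_, RecursiveIn.iff_nat.2 (Nat.RecursiveIn.rfind h4), fun m => ?_⟩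
  rw [Nat.rfind_dom', h3]
  simp only [Nat.unpair_pair, Part.map_eq_map, Part.map_some, Part.mem_some_iff, Part.some_dom,
    implies_true, and_true]
  constructor
  · rintro ⟨w, hw⟩
    refine ⟨w.unpair.1, (h1 (pre y w.unpair.1, m)).2 ⟨w.unpair.2, ?_⟩⟩
    revert hw
    cases t _ <;> simp
  · rintro ⟨n, hn⟩
    obtain ⟨s, hs⟩ := (h1 (pre y n, m)).1 hn
    exact ⟨Nat.pair n s, by simp [hs]⟩

/-- a set is computably enumerable in `y` iff it is a column of the jump of `y` -/
theorem oj_col (y : CS) (B : Set ℕ) :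
    (∃ f : ℕ →. ℕ, RecursiveIn {hat y} f ∧ ∀ m, (f m).Dom ↔ m ∈ B) ↔
      ∃ e, ∀ m, m ∈ B ↔ jp y (Nat.pair e m) = true := by
  constructor
  · rintro ⟨f, h1, h2⟩
    obtain ⟨F, hF, rfl⟩ := exists_oracleRec (RecursiveIn.iff_nat.1 h1)
    obtain ⟨e, he⟩ := (Sig.ex (P := fun x (m v : ℕ) => v ∈ F (hat x) m) hF.sig).index
    refine ⟨e, fun m => ?_⟩
    rw [← h2, Part.dom_iff_mem, he]
    simp [jp]
  · rintro ⟨e, he⟩
    obtain ⟨f, h1, h2⟩ := oj_dom (sig_Un.comp (f := fun m : ℕ => Nat.pair e m) (by fun_prop)) y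
    exact ⟨f, h1, fun m => by rw [h2, he]; simp [jp]⟩

/-- the jump itself is computably enumerable in the oracle -/
theorem oj_ce (y : CS) : ∃ f : ℕ →. ℕ, RecursiveIn {hat y} f ∧ ∀ m, (f m).Dom ↔ jp y m = true := by
  obtain ⟨f, h1, h2⟩ := oj_dom sig_Un y
  exact ⟨f, h1, fun m => by rw [h2]; simp [jp]⟩

end Pool.Agent.MinDeg
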