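import Pool.Agent.P.MP_f8f34d_lc.O.Pool
import Pool.Agent.P.MP_f8f34d_lc.G.Fin

/-! The criterion has instances and contains the countability of the exceptions. -/

namespace Pool.Agent.MinDeg

open FirstOrder FirstOrder.Language

theorem os_enum {T : LA.Theory} (hT : T.IsMaximal) : ∃ R : ℕ → Set ℕ, Set.range R = RepT T := by
  obtain ⟨A, hA, -⟩ := op_zz hT
  obtain ⟨R, h⟩ := (countable_RepT T).exists_eq_range ⟨A, hA⟩
  exact ⟨R, h.symm⟩

theorem os_countable (y : CS) : Set.Countable {T : LA.Theory | T.IsMaximal ∧ LeT (tg T) y} :=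
  Set.MapsTo.countable_of_injOn (f := tg) (fun _ h => h.2)
    (fun _ h _ h' e => tg_inj h.1 h'.1 e) (countable_leT y)

/-- a criterion of this shape leaves countably many exceptions over each family -/
theorem os_fibre (F : (ℕ → Set ℕ) → CS) (H : ∀ T : LA.Theory, T.IsMaximal → PA ⊆ T → T ≠ TA →
    ∀ R : ℕ → Set ℕ, Set.range R = RepT T → ¬ LeT (tg T) (F R) → Yes T) (S : Set (Set ℕ)) :
    Set.Countable {T : LA.Theory | T.IsMaximal ∧ PA ⊆ T ∧ RepT T = S ∧ ¬ Yes T} := by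
  by_cases h : ∃ R : ℕ → Set ℕ, Set.range R = S
  · obtain ⟨R, hR⟩ := h
    refine ((os_countable (F R)).insert TA).mono ?_
    rintro T ⟨h1, h2, h3, h4⟩
    by_cases e : T = TA
    · exact Or.inl e
    · exact Or.inr ⟨h1, by_contra fun k => h4 (H T h1 h2 e R (hR.trans h3.symm) k)⟩
  · refine Set.countable_empty.mono ?_
    rintro T ⟨h1, -, rfl, -⟩
    exact h (os_enum h1)

/-- the hypotheses of a criterion of this shape can be met -/
theorem os_exists (F : (ℕ → Set ℕ) → CS) : ∃ T : LA.Theory, T.IsMaximal ∧ PA ⊆ T ∧ T ≠ TA ∧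
    ∃ R : ℕ → Set ℕ, Set.range R = RepT T ∧ ¬ LeT (tg T) (F R) := by
  obtain ⟨y0, h0, -⟩ := tth_onto (T := TA) (@completeTheory.isMaximal LA ℕ natS _) fun σ h =>
    @Theory.realize_sentence_of_mem LA ℕ natS PA natS_model_PA σ h
  obtain ⟨Y, y1, y2, y3⟩ := g_tree (X := zz) (G := {y | Tab y}) (fun _ h => h)
    ⟨fun _ y => Tab y, Pii.map (P := fun x (_ : Unit) => Tab x) pi_tab CM.id.rt (g := fun _ => ())
      (Computable.const _), fun _ => Iff.rfl⟩ (φ := .fal) ⟨fun _ => zz, CM.zz, fun _ _ => rfl⟩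
    ⟨y0, h0⟩ (O := fun _ => Set.univ) (fun _ => isOpen_univ)
    fun _ _ _ ⟨y, a, b⟩ => ⟨y, a, b, trivial⟩
  obtain ⟨R, hR⟩ := os_enum (tth_max (Y zz))
  by_contra hc
  have hu : (Set.univ : Set CS).Countable := by
    refine Set.MapsTo.countable_of_injOn (f := fun f => tth (Y f)) (fun f _ => ?_)
      (fun f _ g _ e => y3 (congrArg tg e)) ((os_countable (F R)).insert TA)
    by_cases e : tth (Y f) = TA
    · exact Or.inl e
    have t1 := (y1 f).1
    have t2 := (y1 zz).1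
    exact Or.inr ⟨tth_max _, by_contra fun k => hc ⟨_, tth_max _, tth_pa t1, e, R,
      hR.trans ((tth_rep t2 t1 (y2 zz f)).antisymm (tth_rep t1 t2 (y2 f zz))), k⟩⟩
  obtain ⟨x, hx⟩ := (dense_of_mem_residual (res_countable hu)).nonempty
  exact hx trivial

end Pool.Agent.MinDeg
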