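import Pool.Agent.P.MP_f8f34d_lc.Deg
import Pool.Agent.P.MP_f8f34d_lc.a.Sat

/-! A computable translation of formulas into block codes. -/

namespace Pool.Agent.MinDeg

open FirstOrder FirstOrder.Language Pool.Agent.Lib.ComputableProp

theorem otr_pow {M : Type} (P : Pre M) (k j c : ℕ) (v : ℕ → M) :
    sat P (k + j) (2 ^ j * c) v ↔ sat P k c v := by
  induction j with
  | zero => simp
  | succ j ih => rw [← add_assoc, pow_succ', mul_assoc, sat_two_mul, ih]

theorem otr_lift {M : Type} (P : Pre M) {k n : ℕ} (h : k ≤ n) (c : ℕ) (v : ℕ → M) :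
    sat P n (2 ^ (n - k) * c) v ↔ sat P k c v := by
  have := otr_pow P k (n - k) c v
  rwa [Nat.add_sub_cancel' h] at this

theorem otr_atom {M : Type} (P : Pre M) (n c : ℕ) (v : ℕ → M) :
    sat P n (2 ^ n * c) v ↔ P c (v 0) (v 1) (v 2) := otr_lift P (Nat.zero_le n) c v

/-- the literal of level `n` which says that variable `m + q` is the value of the term `q` -/
def otr_tl (n m q : ℕ) : Lt :=
  cond (leb q 1) (true, 2 ^ n * (4 + q), [m + q])
    (cond (eqb (q % 3) 2)
      (cond (leb m (q / 3)) (true, 2 ^ n * 4, [m + q]) (true, 2 ^ n * 0, [m + q, q / 3]))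
      (true, 2 ^ n * (2 + q % 3), [m + (q / 3 - 1).unpair.1, m + (q / 3 - 1).unpair.2, m + q]))

/-- the sign of the translation -/
def otr_sg (n : ℕ) : Bool := eqb (n % 4) 1 || eqb (n % 4) 2

/-- the literals of the block of formula `n` with `m` free variables, from the earlier codes -/
def otr_ls (n m : ℕ) (L : List ℕ) : List Lt :=
  cond (eqb n 0) []
    (cond (eqb (n % 4) 0)
      [(!otr_sg (n / 4 - 1), 2 ^ (n - (n / 4 - 1 + 1)) *
        L.getD (Nat.pair (n / 4 - 1) (n / 4 - 1 + (m + 1))) 0, List.range (m + 1))]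
      (cond (eqb (n % 4) 3)
        [(otr_sg (n / 4).unpair.1, 2 ^ (n - ((n / 4).unpair.1 + 1)) *
            L.getD (Nat.pair (n / 4).unpair.1 ((n / 4).unpair.1 + m)) 0, List.range m),
          (!otr_sg (n / 4).unpair.2, 2 ^ (n - ((n / 4).unpair.2 + 1)) *
            L.getD (Nat.pair (n / 4).unpair.2 ((n / 4).unpair.2 + m)) 0, List.range m)]
        ((true, 2 ^ n * (n % 4 - 1), [m + (n / 4).unpair.1, m + (n / 4).unpair.2]) ::
          (List.range n).map (fun q => otr_tl n m q))))

def otr_st (L : List ℕ) : ℕ :=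
  exC (L.length.unpair.2 - L.length.unpair.1)
    (otr_ls L.length.unpair.1 (L.length.unpair.2 - L.length.unpair.1) L)

/-- the code of level `n + 1` of formula `n` with `m` free variables -/
def otr_tr (n m : ℕ) : ℕ := srec otr_st (Nat.pair n (n + m))

section
variable {α : Type} [Primcodable α]

theorem otr_c_tl {f g h : α → ℕ} (hf : Computable f) (hg : Computable g) (hh : Computable h) :
    Computable (fun a => otr_tl (f a) (g a) (h a)) := by
  unfold otr_tl; fun_prop

@[fun_prop] theorem otr_c_sg {f : α → ℕ} (hf : Computable f) :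
    Computable (fun a => otr_sg (f a)) := by
  unfold otr_sg; fun_prop

theorem otr_c_ls {f g : α → ℕ} {l : α → List ℕ} (hf : Computable f) (hg : Computable g)
    (hl : Computable l) : Computable (fun a => otr_ls (f a) (g a) (l a)) := by
  have h1 : Computable fun a => (List.range (f a)).map (fun q => otr_tl (f a) (g a) q) :=
    c_map (by fun_prop) (otr_c_tl (by fun_prop) (by fun_prop) (by fun_prop))
  unfold otr_ls
  refine c_cond (by fun_prop) (by fun_prop) (c_cond (by fun_prop) (by fun_prop)
    (c_cond (by fun_prop) (by fun_prop) (c_cons (by fun_prop) h1)))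

end

theorem otr_c_st : Computable otr_st :=
  c_exC (by fun_prop) (otr_c_ls (by fun_prop) (by fun_prop) (by fun_prop))

theorem otr_tr_eq (n m : ℕ) :
    otr_tr n m = exC m (otr_ls n m ((List.range (Nat.pair n (n + m))).map (srec otr_st))) := by
  rw [otr_tr, srec_eq]
  simp only [otr_st, List.length_map, List.length_range, Nat.unpair_pair, Nat.add_sub_cancel_left]

theorem otr_get {a n m m' : ℕ} (h : a < n) (h' : m' ≤ m + 1) :
    ((List.range (Nat.pair n (n + m))).map (srec otr_st)).getD (Nat.pair a (a + m')) 0 =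
      otr_tr a m' := by
  refine getD_range_map _ _ (lt_of_le_of_lt ?_ (Nat.pair_lt_pair_left (n + m) h))
  rcases (by omega : a + m' < n + m ∨ a + m' = n + m) with k | k
  · exact (Nat.pair_lt_pair_right a k).le
  · rw [k]

theorem otr_tr_fal (m : ℕ) : otr_tr 0 m = exC m [] := by
  rw [otr_tr_eq]; rfl

theorem otr_tr_at (a b r m : ℕ) (h : r = 1 ∨ r = 2) :
    otr_tr (4 * Nat.pair a b + r) m = exC m
      ((true, 2 ^ (4 * Nat.pair a b + r) * (r - 1), [m + a, m + b]) ::
        (List.range (4 * Nat.pair a b + r)).map (fun q => otr_tl (4 * Nat.pair a b + r) m q)) := by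
  rw [otr_tr_eq]
  have h0 : ¬ 4 * Nat.pair a b + r = 0 := by omega
  have h1 : ¬ r = 0 := by omega
  have h2 : ¬ r = 3 := by omega
  have h3 : (4 * Nat.pair a b + r) / 4 = Nat.pair a b := by omega
  have h4 : (4 * Nat.pair a b + r) % 4 = r := by omega
  simp only [otr_ls, h3, h4, Nat.unpair_pair, eqb, h0, h1, h2, decide_false, cond_false]

theorem otr_tr_imp (a b m : ℕ) :
    otr_tr (4 * Nat.pair a b + 3) m = exC m
      [(otr_sg a, 2 ^ (4 * Nat.pair a b + 3 - (a + 1)) * otr_tr a m, List.range m),
        (!otr_sg b, 2 ^ (4 * Nat.pair a b + 3 - (b + 1)) * otr_tr b m, List.range m)] := by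
  rw [otr_tr_eq]
  have h0 : ¬ 4 * Nat.pair a b + 3 = 0 := by omega
  have h3 : (4 * Nat.pair a b + 3) / 4 = Nat.pair a b := by omega
  have h4 : (4 * Nat.pair a b + 3) % 4 = 3 := by omega
  have h5 := Nat.left_le_pair a b
  have h6 := Nat.right_le_pair a b
  have h7 : ¬ (3 : ℕ) = 0 := by omega
  simp only [otr_ls, h3, h4, Nat.unpair_pair, eqb, h0, h7, decide_false, cond_false, decide_true,
    cond_true]
  rw [otr_get (by omega) (by omega), otr_get (by omega) (by omega)]

theorem otr_tr_all (a m : ℕ) :
    otr_tr (4 * a + 4) m = exC m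
      [(!otr_sg a, 2 ^ (4 * a + 4 - (a + 1)) * otr_tr a (m + 1), List.range (m + 1))] := by
  rw [otr_tr_eq]
  have h0 : ¬ 4 * a + 4 = 0 := by omega
  have h3 : (4 * a + 4) / 4 - 1 = a := by omega
  have h4 : (4 * a + 4) % 4 = 0 := by omega
  simp only [otr_ls, h3, h4, eqb, h0, decide_false, cond_false]
  rw [otr_get (by omega) (by omega)]
  rfl

section
variable {M : Type} [LA.Structure M]

/-- the literal holds -/
def otr_H (n : ℕ) (l : Lt) (w : ℕ → M) : Prop :=
  sat (PreLA M) n l.2.1 (ren w l.2.2) ↔ l.1 = true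

theorem otr_H_var (n m k : ℕ) (w : ℕ → M) : otr_H n (otr_tl n m (code (Term.var k))) w ↔
    w (m + code (Term.var k)) = if k < m then w k else zM := by
  have h1 : (3 * k + 2) % 3 = 2 := by omega
  have h2 : (3 * k + 2) / 3 = k := by omega
  have h3 : ¬ 3 * k + 2 ≤ 1 := by omega
  by_cases h : k < m
  · have h4 : ¬ m ≤ k := by omega
    simp only [otr_H, otr_tl, code_var, h1, h2, h3, h4, eqb, leb, decide_false, decide_true,
      cond_false, cond_true, otr_atom, iff_true, if_pos h]
    simp [PreLA, ren]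
  · have h4 : m ≤ k := by omega
    simp only [otr_H, otr_tl, code_var, h1, h2, h3, h4, eqb, leb, decide_false, decide_true,
      cond_false, cond_true, otr_atom, iff_true, if_neg h]
    simp [PreLA, ren]

theorem otr_H_zero (n m : ℕ) (w : ℕ → M) :
    otr_H n (otr_tl n m (code zeroT)) w ↔ w (m + code zeroT) = zM := by
  simp only [otr_H, otr_tl, code_zero, leb, Nat.zero_le, decide_true, cond_true, otr_atom, iff_true]
  simp [PreLA, ren]

theorem otr_H_one (n m : ℕ) (w : ℕ → M) :
    otr_H n (otr_tl n m (code oneT)) w ↔ w (m + code oneT) = oM := by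
  simp only [otr_H, otr_tl, code_one, leb, le_refl, decide_true, cond_true, otr_atom, iff_true]
  simp [PreLA, ren]

theorem otr_H_add (n m : ℕ) (s t : LA.Term ℕ) (w : ℕ → M) :
    otr_H n (otr_tl n m (code (addT s t))) w ↔
      aM (w (m + code s)) (w (m + code t)) = w (m + code (addT s t)) := by
  rw [code_add]
  generalize code s = a
  generalize code t = b
  have h1 : (3 * Nat.pair a b + 3) % 3 = 0 := by omega
  have h2 : (3 * Nat.pair a b + 3) / 3 - 1 = Nat.pair a b := by omega
  have h3 : ¬ 3 * Nat.pair a b + 3 ≤ 1 := by omega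
  have h4 : ¬ (0 : ℕ) = 2 := by omega
  simp only [otr_H, otr_tl, h1, h2, h3, h4, eqb, leb, decide_false, cond_false, otr_atom,
    iff_true, Nat.unpair_pair]
  simp [PreLA, ren]

theorem otr_H_mul (n m : ℕ) (s t : LA.Term ℕ) (w : ℕ → M) :
    otr_H n (otr_tl n m (code (mulT s t))) w ↔
      mM (w (m + code s)) (w (m + code t)) = w (m + code (mulT s t)) := by
  rw [code_mul]
  generalize code s = a
  generalize code t = b
  have h1 : (3 * Nat.pair a b + 4) % 3 = 1 := by omega
  have h2 : (3 * Nat.pair a b + 4) / 3 - 1 = Nat.pair a b := by omega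
  have h3 : ¬ 3 * Nat.pair a b + 4 ≤ 1 := by omega
  have h4 : ¬ (1 : ℕ) = 2 := by omega
  simp only [otr_H, otr_tl, h1, h2, h3, h4, eqb, leb, decide_false, cond_false, otr_atom,
    iff_true, Nat.unpair_pair]
  simp [PreLA, ren]

theorem otr_getD (m k : ℕ) (v : ℕ → M) :
    ((List.range m).map v).getD k zM = if k < m then v k else zM := by
  split_ifs with h
  · exact getD_range_map _ _ h
  · exact List.getD_eq_default _ _ (by simpa using h)

/-- the term literals force the values -/
theorem otr_val {n m : ℕ} {v w : ℕ → M} (hw : ∀ i < m, w i = v i)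
    (h : ∀ q < n, otr_H n (otr_tl n m q) w) (t : LA.Term ℕ) :
    code t < n → w (m + code t) = ev ((List.range m).map v) t := by
  induction t using term_ind with
  | hv k =>
    intro ht
    rw [(otr_H_var n m k w).1 (h _ ht), ev_var, otr_getD]
    split_ifs with c
    exacts [hw k c, rfl]
  | h0 => intro ht; rw [(otr_H_zero n m w).1 (h _ ht), ev_zero]
  | h1 => intro ht; rw [(otr_H_one n m w).1 (h _ ht), ev_one]
  | ha s t i j =>
    intro ht
    have h5 := Nat.left_le_pair (code s) (code t)
    have h6 := Nat.right_le_pair (code s) (code t)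
    have h7 := code_add s t
    rw [← (otr_H_add n m s t w).1 (h _ ht), ev_add, i (by omega), j (by omega)]
  | hm s t i j =>
    intro ht
    have h5 := Nat.left_le_pair (code s) (code t)
    have h6 := Nat.right_le_pair (code s) (code t)
    have h7 := code_mul s t
    rw [← (otr_H_mul n m s t w).1 (h _ ht), ev_mul, i (by omega), j (by omega)]

/-- the term literals can be met -/
theorem otr_ex (n m : ℕ) (v : ℕ → M) :
    ∃ w : ℕ → M, (∀ i < m, w i = v i) ∧ ∀ q, otr_H n (otr_tl n m q) w := by
  choose d hd using code_surj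
  have hd' : ∀ t, d (code t) = t := fun t => code_inj (hd _)
  obtain ⟨w, h1, h2⟩ : ∃ w : ℕ → M, (∀ i < m, w i = v i) ∧
      ∀ t, w (m + code t) = ev ((List.range m).map v) t :=
    ⟨fun i => if i < m then v i else ev ((List.range m).map v) (d (i - m)),
      fun i hi => if_pos hi, fun t => by
        beta_reduce
        rw [if_neg (by omega), Nat.add_sub_cancel_left, hd']⟩
  refine ⟨w, h1, fun q => ?_⟩
  obtain ⟨t, rfl⟩ := code_surj q
  induction t using term_ind with
  | hv k =>
    rw [otr_H_var, h2, ev_var, otr_getD]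
    split_ifs with c
    exacts [(h1 k c).symm, rfl]
  | h0 => rw [otr_H_zero, h2, ev_zero]
  | h1 => rw [otr_H_one, h2, ev_one]
  | ha s t => rw [otr_H_add, h2, h2, h2, ev_add]
  | hm s t => rw [otr_H_mul, h2, h2, h2, ev_mul]

theorem otr_at (s t : LA.Term ℕ) (r m : ℕ) (h : r = 1 ∨ r = 2) (v : ℕ → M) :
    sat (PreLA M) (4 * Nat.pair (code s) (code t) + r + 1)
      (otr_tr (4 * Nat.pair (code s) (code t) + r) m) v ↔
      if r = 1 then ev ((List.range m).map v) s = ev ((List.range m).map v) t
      else lM (ev ((List.range m).map v) s) (ev ((List.range m).map v) t) := by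
  have h5 := Nat.left_le_pair (code s) (code t)
  have h6 := Nat.right_le_pair (code s) (code t)
  rw [otr_tr_at _ _ _ _ h, sat_exC]
  generalize hn : 4 * Nat.pair (code s) (code t) + r = n
  have key : ∀ w : ℕ → M, (∀ i < m, w i = v i) → (∀ q < n, otr_H n (otr_tl n m q) w) →
      (sat (PreLA M) n (2 ^ n * (r - 1)) (ren w [m + code s, m + code t]) ↔
      if r = 1 then ev ((List.range m).map v) s = ev ((List.range m).map v) t
      else lM (ev ((List.range m).map v) s) (ev ((List.range m).map v) t)) := fun w hw hq => by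
    rw [otr_atom, ← otr_val hw hq s (by omega), ← otr_val hw hq t (by omega)]
    rcases h with rfl | rfl <;> simp [PreLA, ren]
  simp only [Hold, List.forall_mem_cons, List.forall_mem_map, List.mem_range, iff_true]
  constructor
  · rintro ⟨w, hw, k1, k2⟩
    exact (key w hw k2).1 k1
  · intro k
    obtain ⟨w, hw, hq⟩ := otr_ex n m v
    exact ⟨w, hw, (key w hw fun q _ => hq q).2 k, fun q _ => hq q⟩

omit [LA.Structure M] in
theorem otr_ren {m : ℕ} {v w : ℕ → M} (hw : ∀ i < m, w i = v i) :
    (List.range m).map (ren w (List.range m)) = (List.range m).map v := by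
  refine List.map_inj_left.2 fun i hi => ?_
  rw [List.mem_range] at hi
  rw [← hw i hi]
  simp [ren, List.getD_eq_getElem?_getD, hi]

/-- the translation is correct -/
theorem otr_sat (p : Fm) : ∀ (m : ℕ) (v : ℕ → M), Sat p ((List.range m).map v) ↔
    (sat (PreLA M) (p.enc + 1) (otr_tr p.enc m) v ↔ otr_sg p.enc = true) := by
  induction p with
  | fal =>
    intro m v
    rw [Fm.enc, otr_tr_fal, sat_exC]
    refine iff_of_false (fun h => h) fun h => ?_
    exact absurd (h.1 ⟨v, fun _ _ => rfl, fun _ hl => absurd hl List.not_mem_nil⟩) (by decide)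
  | eq s t =>
    intro m v
    have h : otr_sg (4 * Nat.pair (code s) (code t) + 1) = true := by
      have : (4 * Nat.pair (code s) (code t) + 1) % 4 = 1 := by omega
      simp [otr_sg, this]
    rw [Fm.enc, otr_at s t 1 m (Or.inl rfl), h]
    simp
  | lt s t =>
    intro m v
    have h : otr_sg (4 * Nat.pair (code s) (code t) + 2) = true := by
      have : (4 * Nat.pair (code s) (code t) + 2) % 4 = 2 := by omega
      simp [otr_sg, this]
    rw [Fm.enc, otr_at s t 2 m (Or.inr rfl), h]
    simp
  | imp p q i j =>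
    intro m v
    have h : otr_sg (4 * Nat.pair p.enc q.enc + 3) = false := by
      have : (4 * Nat.pair p.enc q.enc + 3) % 4 = 3 := by omega
      simp [otr_sg, this, eqb]
    have h5 := Nat.left_le_pair p.enc q.enc
    have h6 := Nat.right_le_pair p.enc q.enc
    rw [Fm.enc, otr_tr_imp, sat_exC, h, sat_imp]
    have key : ∀ w : ℕ → M, (∀ i < m, w i = v i) → (Hold (PreLA M) (4 * Nat.pair p.enc q.enc + 3)
        [(otr_sg p.enc, 2 ^ (4 * Nat.pair p.enc q.enc + 3 - (p.enc + 1)) * otr_tr p.enc m,
          List.range m), (!otr_sg q.enc, 2 ^ (4 * Nat.pair p.enc q.enc + 3 - (q.enc + 1)) *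
          otr_tr q.enc m, List.range m)] w ↔
        Sat p ((List.range m).map v) ∧ ¬ Sat q ((List.range m).map v)) := fun w hw => by
      simp only [Hold, List.forall_mem_cons, List.not_mem_nil, false_imp_iff, implies_true,
        and_true]
      rw [otr_lift _ (by omega), otr_lift _ (by omega), ← otr_ren hw, i, j]
      cases otr_sg q.enc <;> simp
    constructor
    · intro k
      refine iff_of_false ?_ (by decide)
      rintro ⟨w, hw, hH⟩
      exact ((key w hw).1 hH).2 (k ((key w hw).1 hH).1)
    · intro k k1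
      by_contra k2
      exact absurd (k.1 ⟨v, fun _ _ => rfl, (key v fun _ _ => rfl).2 ⟨k1, k2⟩⟩) (by decide)
  | all p i =>
    intro m v
    have h : otr_sg (4 * p.enc + 4) = false := by
      have : (4 * p.enc + 4) % 4 = 0 := by omega
      simp [otr_sg, this, eqb]
    rw [Fm.enc, otr_tr_all, sat_exC, h, sat_all]
    have key : ∀ w : ℕ → M, (∀ i < m, w i = v i) → (Hold (PreLA M) (4 * p.enc + 4)
        [(!otr_sg p.enc, 2 ^ (4 * p.enc + 4 - (p.enc + 1)) * otr_tr p.enc (m + 1),
          List.range (m + 1))] w ↔ ¬ Sat p ((List.range m).map v ++ [w m])) := fun w hw => by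
      have e : (List.range m).map v ++ [w m] =
          (List.range (m + 1)).map (ren w (List.range (m + 1))) := by
        rw [otr_ren (v := w) fun _ _ => rfl, List.range_succ, List.map_append]
        congr 1
        exact List.map_inj_left.2 fun i hi => (hw i (List.mem_range.1 hi)).symm
      simp only [Hold, List.forall_mem_cons, List.not_mem_nil, false_imp_iff, implies_true,
        and_true]
      rw [otr_lift _ (by omega), e, i]
      cases otr_sg p.enc <;> simp
    constructor
    · intro k
      refine iff_of_false ?_ (by decide)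
      rintro ⟨w, hw, hH⟩
      exact (key w hw).1 hH (k _)
    · intro k a
      by_contra k2
      have hw : ∀ i < m, (fun i => if i < m then v i else a) i = v i := fun i hi => if_pos hi
      refine absurd (k.1 ⟨_, hw, (key _ hw).2 ?_⟩) (by decide)
      simpa using k2

end

theorem exists_tr : ∃ f : ℕ → ℕ, Computable f ∧ ∀ (N : Type) [LA.Structure N] (n : ℕ),
    tg (completeTheory LA N) n = (eqb (fmB n) 0 && TK (PreLA N) (n + 1) (f n)) := by
  have hc : Computable fun n => otr_tr n 0 := (c_srec otr_c_st).comp (by fun_prop)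
  refine ⟨fun n => Encodable.encode [((otr_sg n, otr_tr n 0, []) : Lt)], by fun_prop,
    fun N _ n => ?_⟩
  obtain ⟨p, rfl⟩ := enc_surj n
  have key : th (PreLA N) (p.enc + 1) [((otr_sg p.enc, otr_tr p.enc 0, []) : Lt)] ↔
      Sat (M := N) p [] := by
    simp only [th, Hold, List.forall_mem_cons, List.not_mem_nil, false_imp_iff, implies_true,
      and_true]
    exact ⟨fun ⟨v, h⟩ => (otr_sat p 0 _).2 h, fun h => ⟨fun _ => zM, (otr_sat p 0 _).1 h⟩⟩
  rw [Bool.eq_iff_iff]
  simp only [tg, decide_eq_true_eq, Bool.and_eq_true, eqb_iff, TK_iff, key]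
  constructor
  · rintro ⟨σ, h1, h2⟩
    refine ⟨h2 ▸ Nat.le_zero.1 (fmB_gn σ), ?_⟩
    rw [← enc_T1] at h2
    rw [← enc_inj h2]
    exact (sat_T1_sentence σ).2 h1
  · rintro ⟨h1, h2⟩
    exact ⟨T2 p 0, (sat_T2_sentence p).2 h2, gn_T2 p 0 h1.le⟩

end Pool.Agent.MinDeg
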