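import Pool.Agent.P.MP_f8f34d_lc.O.Fs
import Pool.Agent.P.MP_f8f34d_lc.O.Defs
import Pool.Agent.P.MP_f8f34d_lc.O.Tr
import Pool.Agent.P.MP_f8f34d_lc.O.Side
import Pool.Agent.P.MP_f8f34d_lc.O.Jump

/-! Assembly. -/

namespace Pool.Agent.MinDeg

open FirstOrder FirstOrder.Language Pool.Agent.Lib.ComputableProp

theorem chi_jump (A : Set ℕ) : chi (jump A) = jp (chi A) := by
  funext i
  rw [Bool.eq_iff_iff]
  simp only [chi, jp, decide_eq_true_eq, jump, Un, Set.mem_ofPred_eq, Ext]
  refine exists_congr fun σ => and_congr (forall₂_congr fun k _ => ?_)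
    Nat.Partrec.Code.evaln_complete
  cases σ.getD k false <;> simp

theorem col_join (R : ℕ → Set ℕ) (u : ℕ) : col (chi (join R)) u = chi (R u) := by
  funext n
  simp [col, chi, join]

theorem chi_omega (A : Set ℕ) : chi (omegaJump A) = oj (chi A) := by
  have : ∀ k, chi (jump^[k] A) = jp^[k] (chi A) := fun k => by
    induction k with
    | zero => rfl
    | succ k ih => rw [Function.iterate_succ_apply', Function.iterate_succ_apply', chi_jump, ih]
  funext p
  rw [oj, ← this]
  rfl

theorem degS_eq (A : Set ℕ) : degS A = toAntisymmetrization TuringReducible (hat (chi A)) := by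
  unfold degS hat chi
  congr 1
  funext n
  by_cases h : n ∈ A <;> simp [h]

theorem tg_le_of_TK {y : CS} {N : Type} [LA.Structure N]
    (h : CF y fun w : ℕ × ℕ => TK (PreLA N) w.1 w.2) : LeT (tg (completeTheory LA N)) y := by
  obtain ⟨f, hf, e⟩ := exists_tr
  have hB := c_fmB
  exact ((CF.of_computable (f := fun w : ℕ × Bool => eqb (fmB w.1) 0 && w.2) (by fun_prop)).comp
    ((CF.of_computable Computable.id).pair (h.compC (g := fun n : ℕ => (n + 1, f n))
      (by fun_prop)))).of_eq fun n => (e N n).symm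

theorem omega_le {T : LA.Theory} {A : Set ℕ} :
    degT T ≤ degS (omegaJump A) ↔ LeT (tg T) (oj (chi A)) := by
  rw [degT_eq, degS_eq, chi_omega]
  exact ⟨fun h => LeT.of_turing h, fun h => h.turing⟩

theorem omega_main (sol : SolovayStmt) (T : LA.Theory) (hT : T.IsMaximal) (hPA : PA ⊆ T)
    (hTA : T ≠ TA) (R : ℕ → Set ℕ) (hR : Set.range R = RepT T)
    (h : ¬ LeT (tg T) (oj (chi (join R)))) : Yes T := by
  obtain ⟨N⟩ := hT.1
  refine yes_omega sol (R := col (chi (join R))) hT hPA hTA ?_ N N.is_model fun hx => h ?_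
  · rw [← hR, ← Set.range_comp]
    exact congrArg Set.range (funext (col_join R))
  · rw [eq_completeTheory hT N N.is_model]
    exact tg_le_of_TK (exc_le hx)

end Pool.Agent.MinDeg
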