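import Pool.Agent.P.MP_f8f34d_lc.O.Mem

/-! An exceptional theory is computable in the omega jump of the enumeration. -/

namespace Pool.Agent.MinDeg

open Pool.Agent.Lib.ComputableProp

/-- code, list and default of the assignment, column, index -/
abbrev Pm : Type := ℕ × List ℕ × ℕ × ℕ × ℕ

def dP (n : ℕ) : Pm × Bool := (Encodable.decode (α := Pm × Bool) n).getD default

@[fun_prop] theorem c_dP {α : Type} [Primcodable α] {f : α → ℕ} (hf : Computable f) :
    Computable fun a => dP (f a) :=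
  Computable.option_getD (c_decode hf) (Computable.const _)

@[fun_prop] theorem c_getD3 {α : Type} [Primcodable α] {l : α → List ℕ} {i d : α → ℕ}
    (hl : Computable l) (hi : Computable i) (hd : Computable d) :
    Computable fun a => (l a).getD (i a) (d a) :=
  (Computable.option_getD (c_getElem? hl hi) hd).of_eq fun _ => List.getD_eq_getElem?_getD.symm

def Gk (z : CS) (k : ℕ) (a : Pm) (b : Bool) : Prop :=
  cd z a.2.2.2.1 a.2.2.2.2 ∈ Fs (col z) k a.1 (fun j => a.2.1.getD j a.2.2.1) b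

open Classical in
noncomputable def GG (z : CS) (k : ℕ) : CS := fun n => decide (Gk z k (dP n).1 (dP n).2)

theorem gg_enc (z : CS) (k : ℕ) (a : Pm) (b : Bool) :
    GG z k (Encodable.encode (a, b)) = true ↔ Gk z k a b := by
  rw [GG, dP, Encodable.encodek]
  exact @decide_eq_true_iff _ (_)

/-- the clause for a block -/
def PhT (y : CS) (a : Pm) : Prop := ∃ lw : List ℕ,
  (∀ j, j < (blk (a.1 / 2)).1 → lw.getD j 0 = a.2.1.getD j a.2.2.1) ∧
  (Kl a.2.2.2.2 (col (lf y) a.2.2.2.1)).Nonempty ∧ ∀ t, t ∈ (blk (a.1 / 2)).2 →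
    rt y (Encodable.encode (((t.2.1, t.2.2.map fun r => lw.getD r 0, lw.getD 0 0, a.2.2.2) : Pm),
      t.1)) = true

/-- the step from one level to the next -/
def Ph (y : CS) (p : Pm × Bool) : Prop :=
  (p.1.1 % 2 = 0 ∧ rt y (Encodable.encode (((p.1.1 / 2, p.1.2) : Pm), p.2)) = true) ∨
  (¬ p.1.1 % 2 = 0 ∧ ((p.2 = true ∧ PhT y p.1) ∨ (p.2 = false ∧ ∃ n,
    Pers (Set.range (col (lf y))) (fn (col (lf y)) (Tm.dec n) 0) ∧
    cd (lf y) p.1.2.2.2.1 p.1.2.2.2.2 ∈ fn (col (lf y)) (Tm.dec n) 0 ∧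
    ∀ u j, cd (lf y) u j ∈ fn (col (lf y)) (Tm.dec n) 0 →
      ¬ PhT y (p.1.1, p.1.2.1, p.1.2.2.1, u, j))))

theorem ar_lf {α : Type} [Primcodable α] {P : CS → α → Prop} (h : Ar P) :
    Ar fun y a => P (lf y) a := h.map CM.id.lf Computable.id

theorem ar_PhT : Ar PhT := by
  unfold PhT
  exact Ar.ex (Ar.and (Ar.all (Ar.imp (Ar.lt (by fun_prop) (by fun_prop))
    (Ar.eq (by fun_prop) (by fun_prop)))) (Ar.and (ar_lf (ar_ne (by fun_prop) (by fun_prop)))
      (Ar.all (Ar.imp (Ar.mem (by fun_prop) (by fun_prop))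
        (Sig.ar (CM.bit CM.id.rt (by fun_prop) (by fun_prop)))))))

theorem ar_Ph : Ar Ph := by
  unfold Ph
  exact Ar.or (Ar.and (Ar.eq (by fun_prop) (by fun_prop))
    (Sig.ar (CM.bit CM.id.rt (by fun_prop) (by fun_prop))))
    (Ar.and (Ar.not (Ar.eq (by fun_prop) (by fun_prop))) (Ar.or
      (Ar.and (Ar.eq (by fun_prop) (by fun_prop)) (ar_PhT.comp Computable.fst))
      (Ar.and (Ar.eq (by fun_prop) (by fun_prop)) (Ar.ex (Ar.and
        (ar_lf (ar_pers.comp Computable.snd)) (Ar.and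
          (ar_lf (ar_m0 (by fun_prop) (by fun_prop) (by fun_prop))) (Ar.all (Ar.all (Ar.imp
            (ar_lf (ar_m0 (by fun_prop) (by fun_prop) (by fun_prop)))
            (Ar.not (Ar.comp ar_PhT (by fun_prop))))))))))))

theorem phT_iff (z : CS) (k : ℕ) (a : Pm) (h : ¬ a.1 % 2 = 0) :
    PhT (jn z (GG z k)) a ↔ Gk z (k + 1) a true := by
  rw [Gk, fs_true _ k h]
  simp only [PhT, lf_jn, rt_jn, gg_enc, Gk, Ws, Set.mem_ofPred_eq, isC_cd]
  constructor
  · rintro ⟨lw, h1, h2, h3⟩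
    exact ⟨fun j => lw.getD j 0, h1, h2, fun t ht => by rw [truth_ren]; exact h3 t ht⟩
  · rintro ⟨w, h1, h2, h3⟩
    obtain ⟨N, hN⟩ : ∃ N, ∀ t ∈ (blk (a.1 / 2)).2, ∀ r ∈ t.2.2, r < N := by
      refine ⟨((blk (a.1 / 2)).2.map fun t => t.2.2.sum).sum + 1, fun t ht r hr => ?_⟩
      have k1 := List.single_le_sum (fun _ _ => Nat.zero_le _) r hr
      have k2 := List.single_le_sum (fun _ _ => Nat.zero_le _) _
        (List.mem_map_of_mem (f := fun t : Lt => t.2.2.sum) ht)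
      omega
    have e : ∀ j < N + (blk (a.1 / 2)).1 + 1,
        ((List.range (N + (blk (a.1 / 2)).1 + 1)).map w).getD j 0 = w j :=
      fun j hj => getD_range_map w 0 hj
    refine ⟨(List.range (N + (blk (a.1 / 2)).1 + 1)).map w,
      fun j hj => (e j (by omega)).trans (h1 j hj), h2, fun t ht => ?_⟩
    rw [e 0 (by omega), List.map_congr_left fun r hr => e r (by have := hN t ht r hr; omega),
      ← truth_ren]
    exact h3 t ht

theorem ph_iff (z : CS) (k : ℕ) (p : Pm × Bool) :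
    Ph (jn z (GG z k)) p ↔ Gk z (k + 1) p.1 p.2 := by
  obtain ⟨a, b⟩ := p
  by_cases h : a.1 % 2 = 0
  · simp only [Ph, h, rt_jn, gg_enc, Gk, fs_even _ k h, true_and, not_true, false_and, or_false]
  simp only [Ph, h, false_and, false_or, not_false_iff, true_and, lf_jn]
  cases b
  · simp only [Bool.false_eq_true, false_and, false_or, true_and]
    rw [Gk, fs_false _ k h]
    constructor
    · rintro ⟨n, h1, h2, h3⟩
      exact ⟨_, h1, h2, (all_mem (fn_isC _ _ 0)).2 fun u j c c' =>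
        h3 u j c ((phT_iff z k (a.1, a.2.1, a.2.2.1, u, j) h).2 c')⟩
    · rintro ⟨t, h1, h2, h3⟩
      obtain ⟨n, rfl⟩ := Tm.dec_surj t
      exact ⟨n, h1, h2, fun u j c c' => h3 _ c ((phT_iff z k (a.1, a.2.1, a.2.2.1, u, j) h).1 c')⟩
  · simp only [true_and, Bool.true_eq_false, false_and, or_false]
    exact phT_iff z k a h

open Classical in
theorem exc_le {z : CS} {M : Type} {P : Pre M} (h : ExcS (col z) (th P)) :
    CF (oj z) fun w : ℕ × ℕ => TK P w.1 w.2 := by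
  obtain ⟨t, ht⟩ := h
  obtain ⟨n0, rfl⟩ := Tm.dec_surj t
  have h0 : Ar fun y (w : Unit × ℕ) => Gk y 0 (dP w.2).1 (dP w.2).2 :=
    ((ar_ne (by fun_prop) (by fun_prop)).and (ar_bit (n := fun w : Unit × ℕ => gA (dP w.2).1.1
      ((dP w.2).1.2.1.getD 0 (dP w.2).1.2.2.1) ((dP w.2).1.2.1.getD 1 (dP w.2).1.2.2.1)
      ((dP w.2).1.2.1.getD 2 (dP w.2).1.2.2.1)) (by fun_prop) (by fun_prop) (by fun_prop)
      (by fun_prop))).of_iff fun y w => and_congr_left' (isC_cd _ _ _).symm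
  have h1 : Ar fun y (w : Unit × ℕ) => Ph y (dP w.2) := ar_Ph.comp (by fun_prop)
  have h2 : Ar fun y (w : Unit × ℕ) => ∃ u i, cd (lf y) u i ∈ fn (col (lf y)) (Tm.dec n0) 0 ∧
      rt y (Encodable.encode (((exC 0 (decL w.2), [], 0, u, i) : Pm), true)) = true :=
    Ar.ex (Ar.ex (Ar.and (ar_lf (ar_m0 (by fun_prop) (by fun_prop) (by fun_prop)))
      (Sig.ar (CM.bit CM.id.rt (by fun_prop) (by fun_prop)))))
  have key := oj_iter (Y := fun y => jn y (GG y 0))
    (Γ := fun y => jn (lf y) fun n => decide (Ph y (dP n)))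
    (Δ := fun y m => decide (∃ u i, cd (lf y) u i ∈ fn (col (lf y)) (Tm.dec n0) 0 ∧
      rt y (Encodable.encode (((exC 0 (decL m), [], 0, u, i) : Pm), true)) = true))
    (CM.id.af.jn h0.af) (CM.id.lf.af.jn h1.af) h2.af z
  have e : ∀ k, (fun y => jn (lf y) fun n => decide (Ph y (dP n)))^[k] (jn z (GG z 0)) =
      jn z (GG z k) := fun k => by
    induction k with
    | zero => rfl
    | succ k ih =>
      rw [Function.iterate_succ_apply', ih, lf_jn]
      congr 1
      funext n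
      rw [GG, decide_eq_decide, ph_iff]
  refine (key.compC (g := fun w : ℕ × ℕ => (w.1 + 1, w.2)) (by fun_prop)).of_eq fun w => ?_
  simp only [e, lf_jn, rt_jn, gg_enc, TK, ht]
  rw [decide_eq_decide]
  constructor
  · rintro ⟨u, i, k1, k2⟩
    exact ⟨_, k1, k2⟩
  · rintro ⟨c, k1, k2⟩
    obtain ⟨u, i, rfl⟩ := isC_kl (fn_isC _ _ _ _ k1)
    exact ⟨u, i, k1, k2⟩

end Pool.Agent.MinDeg
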