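import Pool.Agent.P.MP_f8f34d_lc.O.Run
import Pool.Agent.P.MP_f8f34d_lc.C.Mea

/-! Membership in the members of the pool is arithmetical, uniformly in the name. -/

namespace Pool.Agent.MinDeg

open Pool.Agent.Lib.ComputableProp

def dS (n : ℕ) : St := (Encodable.decode (α := St) n).getD default

theorem c_dS {α : Type} [Primcodable α] {f : α → ℕ} (hf : Computable f) :
    Computable fun a => dS (f a) :=
  Computable.option_getD (c_decode hf) (Computable.const _)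

/-- numbers as names -/
def Tm.dec (n : ℕ) : Tm :=
  if _h0 : n % 5 = 0 then .all
  else if n % 5 = 1 then .bit (n / 5).unpair.1 (eqb (n / 5).unpair.2 1)
  else if n % 5 = 2 then .cap (Tm.dec (n / 5).unpair.1) (Tm.dec (n / 5).unpair.2)
  else if n % 5 = 3 then .only (n / 5).unpair.1 (Tm.dec (n / 5).unpair.2)
  else .fam (dS (n / 5).unpair.1.unpair.1) (n / 5).unpair.1.unpair.2 (Tm.dec (n / 5).unpair.2)
termination_by n
decreasing_by
  all_goals
    have h1 := Nat.unpair_left_le (n / 5)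
    have h2 := Nat.unpair_right_le (n / 5)
    omega

theorem Tm.dec_surj : ∀ t, ∃ n, Tm.dec n = t := by
  have k : ∀ q r, r < 5 → (5 * q + r) % 5 = r ∧ (5 * q + r) / 5 = q := fun q r h => by omega
  intro t
  induction t with
  | all => exact ⟨0, by rw [Tm.dec]; rfl⟩
  | bit n b =>
    refine ⟨5 * Nat.pair n (cond b 1 0) + 1, ?_⟩
    rw [Tm.dec, (k _ 1 (by omega)).1, (k _ 1 (by omega)).2]
    cases b <;> simp [eqb]
  | cap t u i j =>
    obtain ⟨a, rfl⟩ := i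
    obtain ⟨b, rfl⟩ := j
    refine ⟨5 * Nat.pair a b + 2, ?_⟩
    rw [Tm.dec, (k _ 2 (by omega)).1, (k _ 2 (by omega)).2]
    simp
  | only e t i =>
    obtain ⟨a, rfl⟩ := i
    refine ⟨5 * Nat.pair e a + 3, ?_⟩
    rw [Tm.dec, (k _ 3 (by omega)).1, (k _ 3 (by omega)).2]
    simp
  | fam s u t i =>
    obtain ⟨a, rfl⟩ := i
    refine ⟨5 * Nat.pair (Nat.pair (Encodable.encode s) u) a + 4, ?_⟩
    rw [Tm.dec, (k _ 4 (by omega)).1, (k _ 4 (by omega)).2]
    simp only [Nat.unpair_pair, dS, Encodable.encodek, Option.getD_some]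
    simp

/-- the condition with level column `u` and index `i` -/
def cd (z : CS) (u i : ℕ) : Cd := (col z u, Kl i (col z u))

/-- name, requirement, column, index -/
def Mm (z : CS) (x : ℕ × ℕ × ℕ × ℕ) : Prop := cd z x.2.2.1 x.2.2.2 ∈ fn (col z) (Tm.dec x.1) x.2.1

theorem isC_cd (z : CS) (u i : ℕ) :
    IsC (Set.range (col z)) (cd z u i) ↔ (Kl i (col z u)).Nonempty :=
  ⟨fun h => h.2.1, fun h => ⟨⟨u, rfl⟩, h, i, fun _ => Iff.rfl⟩⟩

section
variable {α : Type} [Primcodable α]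

theorem pii_kl {F G : CS → α → CS} (hF : CM F) (hG : CM G) {i : α → ℕ} (hi : Computable i) :
    Pii fun z a => G z a ∈ Kl (i a) (F z a) := pii_K (hF.jn hG) hi

theorem ar_ne {u i : α → ℕ} (hu : Computable u) (hi : Computable i) :
    Ar fun z a => (Kl (i a) (col z (u a))).Nonempty :=
  (Pii.exC (P := fun z y a => y ∈ Kl (i a) (col z (u a)))
    (pii_kl (CM.id.lf.col hu) CM.id.rt hi)).ar

theorem ar_kl {u i j : α → ℕ} (hu : Computable u) (hi : Computable i) (hj : Computable j) :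
    Ar fun z a => Kl (i a) (col z (u a)) ⊆ Kl (j a) (col z (u a)) :=
  ar_sub (P := fun z y a => y ∈ Kl (i a) (col z (u a)))
    (Q := fun z y a => y ∈ Kl (j a) (col z (u a))) (pii_kl (CM.id.lf.col hu) CM.id.rt hi)
    (pii_kl (CM.id.lf.col hu) CM.id.rt hj)

theorem ar_bit {u i n : α → ℕ} {b : α → Bool} (hu : Computable u) (hi : Computable i)
    (hn : Computable n) (hb : Computable b) :
    Ar fun z a => ∀ y ∈ Kl (i a) (col z (u a)), y (n a) = b a :=
  ar_sub (P := fun z y a => y ∈ Kl (i a) (col z (u a))) (Q := fun _ y a => y (n a) = b a)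
    (pii_kl (CM.id.lf.col hu) CM.id.rt hi) (Pii.bit CM.id.rt hn hb)

theorem ar_pp {i : α → ℕ} (hi : Computable i) : Ar fun (_ : CS) a => K (i a) ⊆ PP :=
  ar_sub (P := fun _ y a => y ∈ K (i a)) (Q := fun _ y _ => y ∈ PP) (pii_K CM.id.rt hi)
    (pii_PP CM.id.rt)

end

theorem img_klc : ∃ j : ℕ × St → ℕ, Computable j ∧ ∀ e s A, Img e (PS s A) = Kl (j (e, s)) A := by
  have h1 : Pii (fun z (w : ℕ × St) => ∃ X, X ∈ UU w.2.mu w.2.ix (lf z) ∧ Ag w.1 X (rt z)) :=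
    Pii.exC (P := fun z X (w : ℕ × St) => X ∈ UU w.2.mu w.2.ix (lf z) ∧ Ag w.1 X (rt z))
      ((pii_UU CM.id.rt CM.id.lf.lf (mach_c_mu Computable.snd) (mach_c_ix Computable.snd)).and
        (pii_Ag CM.id.rt CM.id.lf.rt Computable.fst))
  obtain ⟨t, h, ht⟩ := h1.index
  refine ⟨t, h, fun e s A => Set.ext fun y => ?_⟩
  show _ ↔ jn A y ∈ K (t (e, s))
  rw [ht, lf_jn, rt_jn]
  rfl

theorem ar_mm : Ar Mm := by
  obtain ⟨j, hj, ej⟩ := img_klc
  have cn : Computable fun p : (ℕ × ℕ × ℕ × ℕ) × St => p.1.1 := c_fst Computable.fst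
  have ce : Computable fun p : (ℕ × ℕ × ℕ × ℕ) × St => p.1.2.1 := c_fst (c_snd Computable.fst)
  have cu : Computable fun p : (ℕ × ℕ × ℕ × ℕ) × St => p.1.2.2.1 :=
    c_fst (c_snd (c_snd Computable.fst))
  have ci : Computable fun p : (ℕ × ℕ × ℕ × ℕ) × St => p.1.2.2.2 :=
    c_snd (c_snd (c_snd Computable.fst))
  have cs : Computable fun p : (ℕ × ℕ × ℕ × ℕ) × St => p.2 := Computable.snd
  have cr := c_mod cn (Computable.const 5)
  have c1 := c_fst (c_unpair (c_div cn (Computable.const 5)))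
  have c2 := c_snd (c_unpair (c_div cn (Computable.const 5)))
  have c0 := c_dS (c_fst (c_unpair c1))
  have hne := ar_ne cu ci
  have cm : Computable fun p : (ℕ × ℕ × ℕ × ℕ) × St =>
      p.2.act.map fun e => ((p.1.1 / 5).unpair.2, e, p.1.2.2.1, j (e, p.2)) :=
    c_map (g := fun (p : (ℕ × ℕ × ℕ × ℕ) × St) e => ((p.1.1 / 5).unpair.2, e, p.1.2.2.1, j (e, p.2)))
      (mach_c_act cs) ((c2.comp Computable.fst).pair (Computable.snd.pair
        ((cu.comp Computable.fst).pair (hj.comp (Computable.snd.pair (cs.comp Computable.fst))))))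
  refine ar_ind (β := St) (((Ar.eq cr (Computable.const 0)).imp hne).and
    (((Ar.eq cr (Computable.const 1)).imp (hne.and
      (ar_bit cu ci c1 (c_eqb c2 (Computable.const 1))))).and
    (((Ar.eq cr (Computable.const 3)).imp ((Ar.eq ce c1).not.imp hne)).and
    ((Ar.eq cr (Computable.const 4)).imp (hne.and ((ar_leads.map
      ((CM.id.col (c_snd (c_unpair c1))).jn (CM.id.col cu)) (c0.pair cs)).and
      (((ar_pp (mach_c_ix cs)).and ((Ar.eq (mach_c_mode cs) (Computable.const 1)).and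
        ((Ar.eq (mach_c_ph cs) (mach_c_ph c0)).and ((Ar.eq (mach_c_rcd cs) (mach_c_rcd c0)).and
          (Ar.eq (mach_c_act cs) (mach_c_act c0)))))).and
        (ar_kl cu ci (hj.comp ((mach_c_own c0).pair cs))))))))))
    (c_cond (c_eqb cr (Computable.const 2))
      (c_cons (c1.pair (ce.pair (cu.pair ci))) (c_cons (c2.pair (ce.pair (cu.pair ci)))
        (Computable.const [])))
      (c_cond (c_eqb cr (Computable.const 3)) (c_cond (c_eqb ce c1)
        (c_cons (c2.pair ((Computable.const 0).pair (cu.pair ci))) (Computable.const []))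
        (Computable.const [])) (c_cond (c_eqb cr (Computable.const 4)) cm (Computable.const []))))
    (fun x => x.1) ?_ ?_
  · rintro ⟨⟨n, e, u, i⟩, s⟩ y hy
    have h1 := Nat.unpair_left_le (n / 5)
    have h2 := Nat.unpair_right_le (n / 5)
    have h5 : n % 5 = 0 ∨ n % 5 = 1 ∨ n % 5 = 2 ∨ n % 5 = 3 ∨ n % 5 = 4 := by omega
    show y.1 < n
    rcases h5 with h | h | h | h | h <;> simp [h, eqb] at hy
    · rcases hy with rfl | rfl <;> dsimp only <;> omega
    · by_cases he : e = (n / 5).unpair.1 <;> simp [he] at hy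
      rw [hy]
      dsimp only
      omega
    · obtain ⟨a, -, rfl⟩ := hy
      dsimp only
      omega
  rintro z ⟨n, e, u, i⟩
  have h5 : n % 5 = 0 ∨ n % 5 = 1 ∨ n % 5 = 2 ∨ n % 5 = 3 ∨ n % 5 = 4 := by omega
  rw [Mm, Tm.dec]
  rcases h5 with h | h | h | h | h
  · simp [h, eqb, fn, isC_cd]
  · simp [h, fn, isC_cd, eqb]
    exact fun _ => ⟨fun k => ⟨0, 0, 0, 0, 0, [], [], [], [], k⟩,
      fun ⟨_, _, _, _, _, _, _, _, _, k⟩ => k⟩
  · simp [h, eqb, fn, Mm]
  · by_cases he : e = (n / 5).unpair.1 <;> simp [h, eqb, fn, Mm, he, isC_cd]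
  · simp only [h, eqb, Mm, lf_jn, rt_jn]
    simp only [show ¬ (4 = 0) by omega, show ¬ (4 = 1) by omega, show ¬ (4 = 2) by omega,
      show ¬ (4 = 3) by omega, dite_false, if_false, false_imp_iff, true_and, forall_const,
      decide_false, decide_true, cond_false, cond_true, List.forall_mem_map, fn, FamS,
      Set.mem_ofPred_eq, isC_cd, ej]
    exact ⟨fun ⟨a, s, b, c, d, f⟩ => ⟨s, ⟨a, b, c, f⟩, d⟩,
      fun ⟨s, ⟨a, b, c, f⟩, d⟩ => ⟨a, s, b, c, d, f⟩⟩

theorem vx_klc : ∃ j : ℕ → ℕ, Computable j ∧ ∀ v A B, Vx v A B = Kl (j v) (rs A B) := by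
  obtain ⟨s, h, hs⟩ := (pii_K (α := ℕ)
    (CM.id.lf.tl.jn ((CM.id.lf.col (Computable.const 0)).jn CM.id.rt)) Computable.id).index
  refine ⟨s, h, fun v A B => Set.ext fun y => ?_⟩
  show _ ↔ jn (rs A B) y ∈ K (s v)
  rw [hs]
  simp [Vx]

section
variable {α : Type} [Primcodable α]

theorem pii_vx {ζ : α → List Bool} {u v : α → ℕ} (hζ : Computable ζ) (hu : Computable u)
    (hv : Computable v) : Pii fun z a => Ext (ζ a) (lf (rt z)) ∧
      rt (rt z) ∈ Vx (v a) (col (lf z) (u a)) (lf (rt z)) :=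
  (Pii.ext CM.id.rt.lf hζ).and (pii_K ((CM.id.lf.col hu).jn (CM.id.rt.lf.jn CM.id.rt.rt)) hv)

theorem ar_fam {ζ : α → List Bool} {u i v : α → ℕ} (hζ : Computable ζ) (hu : Computable u)
    (hi : Computable i) (hv : Computable v) :
    Ar fun z a => Fam (cd z (u a) (i a)) (ζ a) (Vx (v a) (col z (u a))) := by
  refine (Ar.and (Pii.allC
    (P := fun z B a => Ext (ζ a) B → ∃ y, y ∈ Vx (v a) (col z (u a)) B)
    (Pii.imp (CM.id.rt.ext hζ) (Pii.exC
      (P := fun z y a => y ∈ Vx (v a) (col (lf z) (u a)) (rt z))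
        (pii_K ((CM.id.lf.lf.col hu).jn (CM.id.lf.rt.jn CM.id.rt)) hv)))).ar
    (ar_sub (P := fun z x a => Ext (ζ a) (lf x) ∧ rt x ∈ Vx (v a) (col z (u a)) (lf x))
      (Q := fun z x a => rt x ∈ Kl (i a) (col z (u a))) (pii_vx hζ hu hv)
      (pii_kl (CM.id.lf.col hu) CM.id.rt.rt hi))).of_iff fun z a =>
    ⟨fun h => ⟨⟨v a, fun _ _ => Iff.rfl⟩, fun B hB => ⟨h.1 B hB, fun y hy => ?_⟩⟩,
      fun h => ⟨fun B hB => (h.2 B hB).1, fun x hx => (h.2 _ hx.1).2 hx.2⟩⟩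
  have := h.2 (jn B y) (by simpa using ⟨hB, hy⟩)
  rwa [rt_jn] at this

theorem ar_rf {ζ ζ' : α → List Bool} {u i v v' : α → ℕ} (hζ : Computable ζ) (hζ' : Computable ζ')
    (hu : Computable u) (hi : Computable i) (hv : Computable v) (hv' : Computable v') :
    Ar fun z a => Rf (cd z (u a) (i a)) (ζ a) (Vx (v a) (col z (u a))) (ζ' a)
      (Vx (v' a) (col z (u a))) := by
  refine ((ar_fam hζ' hu hi hv').and ((ar_sub (P := fun _ B a => Ext (ζ' a) B)
    (Q := fun _ B a => Ext (ζ a) B) (Pii.ext CM.id.rt hζ') (Pii.ext CM.id.rt hζ)).and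
    (ar_sub (P := fun z x a => Ext (ζ' a) (lf x) ∧ rt x ∈ Vx (v' a) (col z (u a)) (lf x))
      (Q := fun z x a => rt x ∈ Vx (v a) (col z (u a)) (lf x)) (pii_vx hζ' hu hv')
      (pii_K ((CM.id.lf.col hu).jn (CM.id.rt.lf.jn CM.id.rt.rt)) hv)))).of_iff fun z a =>
    and_congr_right fun _ => ⟨fun h B hB => ⟨h.1 B hB, fun y hy => ?_⟩,
      fun h => ⟨fun B hB => (h B hB).1, fun x hx => (h _ hx.1).2 hx.2⟩⟩
  simpa using h.2 (jn B y) (by simpa using ⟨hB, hy⟩)

theorem ar_m0 {n u i : α → ℕ} (hn : Computable n) (hu : Computable u) (hi : Computable i) :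
    Ar fun z a => cd z (u a) (i a) ∈ fn (col z) (Tm.dec (n a)) 0 :=
  ar_mm.comp (f := fun a => (n a, 0, u a, i a)) (by fun_prop)

end

theorem ar_pers : Ar fun z (n : ℕ) => Pers (Set.range (col z)) (fn (col z) (Tm.dec n) 0) := by
  obtain ⟨jv, hj, ej⟩ := vx_klc
  have H : Ar fun z (n : ℕ) =>
      (∀ u i, cd z u i ∈ fn (col z) (Tm.dec n) 0 → ∀ j, (Kl j (col z u)).Nonempty →
        Kl j (col z u) ⊆ Kl i (col z u) → cd z u j ∈ fn (col z) (Tm.dec n) 0) ∧
      ∀ u i, cd z u i ∈ fn (col z) (Tm.dec n) 0 → ∀ ζ v, Fam (cd z u i) ζ (Vx v (col z u)) →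
        ∃ ζ' v', Rf (cd z u i) ζ (Vx v (col z u)) ζ' (Vx v' (col z u)) ∧
          ∀ m, Ext ζ' (col z m) → ∃ u', col z u' = rs (col z u) (col z m) ∧
            cd z u' (jv v') ∈ fn (col z) (Tm.dec n) 0 := by
    refine Ar.and (Ar.all (Ar.all (Ar.imp ?_ (Ar.all (Ar.imp (ar_ne (by fun_prop) (by fun_prop))
      (Ar.imp (ar_kl (by fun_prop) (by fun_prop) (by fun_prop)) ?_))))))
      (Ar.all (Ar.all (Ar.imp ?_ (Ar.all (Ar.all (Ar.imp
        (ar_fam (by fun_prop) (by fun_prop) (by fun_prop) (by fun_prop)) (Ar.ex (Ar.ex (Ar.and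
          (ar_rf (by fun_prop) (by fun_prop) (by fun_prop) (by fun_prop) (by fun_prop)
            (by fun_prop)) (Ar.all (Ar.imp
              (Sig.ar (CM.ext (CM.col CM.id (by fun_prop)) (by fun_prop)))
              (Ar.ex (Ar.and (Pii.ar (Pii.eqC (CM.col CM.id (by fun_prop))
                (CM.rs (CM.col CM.id (by fun_prop)) (CM.col CM.id (by fun_prop))))) ?_)))))))))))))
    all_goals exact ar_m0 (by fun_prop) (by fun_prop) (by fun_prop)
  refine H.of_iff fun z n => ⟨fun h => ⟨fn_isC _ _ 0, (all_mem (fn_isC _ _ 0)).2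
    fun u i k Q hQ hs => ?_, (all_mem (fn_isC _ _ 0)).2 fun u i k ζ V hF => ?_⟩,
    fun h => ⟨fun u i k j c => h.sub _ k _ ((isC_cd z u j).2 c), fun u i k ζ v hF => ?_⟩⟩
  · obtain ⟨j, hj⟩ := hQ.2.2
    obtain rfl : Q = Kl j (col z u) := Set.ext hj
    exact h.1 u i k j hQ.2.1 hs
  · obtain ⟨v, rfl⟩ := hF.vx
    obtain ⟨ζ', v', h1, h2⟩ := h.2 u i k ζ v hF
    refine ⟨ζ', _, h1, ?_⟩
    rintro _ ⟨m, rfl⟩ hm
    obtain ⟨u', k1, k2⟩ := h2 m hm
    rwa [cd, k1, ← ej] at k2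
  · obtain ⟨ζ', V', h1, h2⟩ := h.ref _ k ζ _ hF
    obtain ⟨v', rfl⟩ := h1.1.vx
    refine ⟨ζ', v', h1, fun m hm => ?_⟩
    have k1 := h2 _ ⟨m, rfl⟩ hm
    obtain ⟨u', hu'⟩ := (h.isC _ k1).1
    exact ⟨u', hu', by rw [cd, hu', ← ej]; exact k1⟩

end Pool.Agent.MinDeg
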