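import Pool.Agent.P.MP_f8f34d_lc.C.Tru
import Pool.Agent.P.MP_f8f34d_lc.W.FinB
import Pool.Agent.P.MP_f8f34d_lc.a.PaFin

/-! The construction over the pool without capture; the ideal of represented sets. -/

namespace Pool.Agent.MinDeg

open FirstOrder FirstOrder.Language Pool.Agent.Lib.ComputableProp Filter

variable {R : ℕ → CS}

theorem op_phase (hJ : Idl (Set.range R)) {s : St} {A : CS} {t : Tm}
    (h : Inv (Set.range R) s A (fn R t)) (hm : s.mode = 0) (hlt : ∀ e ∈ s.act, e < s.ph)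
    (hu : ∀ e, s.ph ≤ e → fn R t e = {c | IsC (Set.range R) c}) {G : Set (Set Cd)}
    (hg : GoalS R G) {T : CS} (hT : T ∈ Set.range R) :
    ∃ (s' : St) (A' : CS) (t' : Tm), Leads s A s' A' ∧ Inv (Set.range R) s' A' (fn R t') ∧
      s'.mode = 0 ∧ s'.ph = s.ph + 1 ∧ (∀ e ∈ s'.act, e ∈ s.act ∨ e = s.ph) ∧
      (∀ e, e ∈ s.act ∨ e = s.ph → e ∉ s'.act → Settled (Set.range R) e (PS s' A')) ∧
      (∀ e, fn R t' e ⊆ fn R t e) ∧ (∀ e, e ≠ s.own → fn R t' e = fn R t e) ∧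
      (s.own ∈ s'.act → ∃ E ∈ G, fn R t' s.own ⊆ E) ∧
      ∃ m l, s'.rcd = s.rcd ++ [Nat.pair m l] ∧
        ∀ X ∈ PS s' A', ∀ n, X (Nat.pair m (l + n)) = T n := by
  obtain ⟨s1, D1, l1, i1, m1, p1, r1, d1, a1⟩ := activate hJ h hm hlt
  have i1' : Inv (Set.range R) s1 A (fn R t) := by
    refine ⟨i1.pp, i1.lev, i1.ne, i1.tot, h.pers, fun e he => ?_⟩
    by_cases k : e ∈ s.act
    · exact d1 e k ▸ i1.keep e he
    · rcases a1 with a1 | ⟨a1, -⟩
      · rw [a1] at he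
        rw [hu e ((List.mem_cons.1 he).resolve_right k).ge]
        exact isC_img _ i1.lev i1.ne
      · exact absurd (a1 ▸ he) k
  obtain ⟨s2, A2, t2, c2, i2, m2, p2, r2, d2, d3, g2⟩ := ownerS hJ hg t _ s1 A rfl i1' m1
  obtain ⟨s3, A3, c3, i3, m3, p3, m, l, r3, t3⟩ := sys_round hJ i2 m2 hT
  have c := c2.trans c3
  have ho : s1.own = s.own := by unfold St.own; rw [p1]
  refine ⟨s3, A3, t2, l1.trans c.leads, i3, m3, by rw [p3, p2, p1], fun e he => ?_,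
    fun e he hne => ?_, d2, ho ▸ d3, fun hs => ?_, m, l, by rw [r3, r2, r1], t3⟩
  · have h1 := c.sub e he
    rcases a1 with a1 | ⟨a1, -⟩
    · rw [a1] at h1
      exact (List.mem_cons.1 h1).symm
    · exact Or.inl (a1 ▸ h1)
  · rcases a1 with a1 | ⟨a1, st⟩
    · exact c.set e (by rw [a1]; exact List.mem_cons.2 he.symm) hne
    · rcases he with he | rfl
      · exact c.set e (by rw [a1]; exact he) hne
      · exact st.mono c.leads.1
  · rw [← ho] at hs ⊢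
    exact g2 (c3.sub _ hs)

theorem op_seq (hJ : Idl (Set.range R)) (T : ℕ → CS) (hT : ∀ k, T k ∈ Set.range R)
    (goal : ℕ → Set (Set Cd)) (hg : ∀ g, GoalS R (goal g)) :
    ∃ σ : ℕ → St × CS × (ℕ → Set Cd), (∀ p, consE_Good (Set.range R) p (σ p)) ∧
      ∀ p, consE_Rel (Set.range R) T goal p (σ p) (σ (p + 1)) := by
  obtain ⟨σ0, h0, -⟩ := consE_seq hJ T hT (fun _ => {{c | IsC (Set.range R) c}}) fun _ =>
    ⟨by rintro _ rfl; exact pers_univ hJ, fun c hc => subset_reach _ ⟨_, rfl, hc⟩⟩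
  let I : ℕ → St × CS × Tm → Prop := fun p σ =>
    consE_Good (Set.range R) p (σ.1, σ.2.1, fn R σ.2.2) ∧
      ∀ e, p ≤ e → fn R σ.2.2 e = {c | IsC (Set.range R) c}
  have I0 : I 0 ((σ0 0).1, (σ0 0).2.1, .all) := by
    obtain ⟨a, b⟩ := h0 0
    exact ⟨⟨⟨a.pp, a.lev, a.ne, a.tot, fun _ => pers_univ hJ,
      fun e he => absurd (b.2.2.1 e he) (Nat.not_lt_zero e)⟩, b⟩, fun _ _ => rfl⟩
  have H : ∀ p (σ : {σ // I p σ}), ∃ τ : {τ // I (p + 1) τ}, consE_Rel (Set.range R) T goal p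
      (σ.1.1, σ.1.2.1, fn R σ.1.2.2) (τ.1.1, τ.1.2.1, fn R τ.1.2.2) := by
    rintro p ⟨⟨s, A, t⟩, ⟨h1, h2, h3, h4, h5⟩, h6⟩
    simp only at h1 h2 h3 h4 h5 h6
    subst h3
    obtain ⟨s', A', t', k1, k2, k3, k4, k5, k6, k7, k7', k8, m, l, k9, k10⟩ :=
      op_phase hJ h1 h2 h4 h6 (hg s.ph.unpair.2) (hT s.ph)
    refine ⟨⟨(s', A', t'), ⟨k2, k3, k4, fun e he => ?_, ?_⟩, fun e he => ?_⟩, k1, k6,
      fun e _ => k7 e, k8, m, l, k9, k10⟩
    · rcases k5 e he with h | h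
      · exact (h4 e h).trans (Nat.lt_succ_self _)
      · rw [h]; exact Nat.lt_succ_self _
    · show s'.rcd.length = _
      rw [k9, List.length_append, h5]; rfl
    · have : s.own ≤ s.ph := Nat.unpair_left_le _
      exact (k7' e (by omega)).trans (h6 e (by omega))
  choose f hf using H
  let u : ∀ p, {σ // I p σ} := fun p => Nat.rec ⟨_, I0⟩ (fun p σ => f p σ) p
  exact ⟨fun p => ((u p).1.1, (u p).1.2.1, fn R (u p).1.2.2), fun p => (u p).2.1,
    fun p => hf p (u p)⟩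

theorem op_construct (hJ : Idl (Set.range R)) (T : ℕ → CS) (hT : ∀ k, T k ∈ Set.range R)
    (goal : ℕ → Set (Set Cd)) (hg : ∀ g, GoalS R (goal g)) :
    ∃ X ∈ PP, (∃ S : ℕ × ℕ → Prop, SE (jp (jp X)) S ∧ (∀ k, ∃ a, S (k, a)) ∧
        ∀ k a, S (k, a) → ∀ n, X (Nat.pair a.unpair.1 (a.unpair.2 + n)) = T k n) ∧
      ∀ e y, Tot e X → Ag e X y → (∃ A ∈ Set.range R, LeT X (jn A y)) ∨
        ∃ c : ℕ → Cd, (∀ p, IsC (Set.range R) (c p)) ∧ (∀ p, y ∈ (c p).2) ∧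
          ∀ g, ∃ D ∈ goal g, ∀ᶠ p in atTop, c p ∈ D := by
  obtain ⟨σ, hG, hR⟩ := op_seq hJ T hT goal hg
  obtain ⟨X, hX⟩ := IsCompact.nonempty_iInter_of_sequence_nonempty_isCompact_isClosed
    (fun p => PS (σ p).1 (σ p).2.1) (fun p => (hR p).1.1) (fun p => (hG p).1.ne)
    (consE_closed _ _).isCompact (fun p => consE_closed _ _)
  rw [Set.mem_iInter] at hX
  have run : ∀ p, Relation.ReflTransGen (Step X) (σ 0).1 (σ p).1 := by
    intro p
    induction p with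
    | zero => exact Relation.ReflTransGen.refl
    | succ p ih => exact ih.trans ((hR p).1.2 X (hX (p + 1)))
  have recd : ∀ k, ∃ m l, (σ (k + 1)).1.rcd[k]? = some (Nat.pair m l) ∧
      ∀ n, X (Nat.pair m (l + n)) = T k n := by
    intro k
    obtain ⟨m, l, h1, h2⟩ := (hR k).2.2.2.2
    refine ⟨m, l, ?_, h2 X (hX (k + 1))⟩
    have := (hG k).2.2.2.2
    rw [h1, List.getElem?_append_right this.le, this]
    simp
  obtain ⟨r1, r2⟩ := run_records X (σ 0).1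
  refine ⟨X, (hG 0).1.pp (hX 0).1, ⟨_, r1, fun k => ?_, ?_⟩, fun e y hTot hAg => ?_⟩
  · obtain ⟨m, l, h1, -⟩ := recd k
    exact ⟨_, _, run (k + 1), h1⟩
  · rintro k a ⟨s, hs, ha⟩
    obtain ⟨m, l, h1, h2⟩ := recd k
    rw [r2 _ _ k a _ hs (run (k + 1)) ha h1, Nat.unpair_pair]
    exact h2
  by_cases hS : ∃ q, Settled (Set.range R) e (PS (σ q).1 (σ q).2.1)
  · obtain ⟨q, h | ⟨A, hA, h⟩⟩ := hS
    · exact absurd hTot (h X (hX q))
    · exact Or.inl ⟨A, hA, h X (hX q) y hAg⟩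
  have act : ∀ p, e + 1 ≤ p → e ∈ (σ p).1.act := by
    intro p hp
    induction p, hp using Nat.le_induction with
    | base => exact by_contra fun h => hS ⟨_, (hR e).2.1 e (Or.inr rfl) h⟩
    | succ p _ ih => exact by_contra fun h => hS ⟨_, (hR p).2.1 e (Or.inl ih) h⟩
  have dec : ∀ p q, e + 1 ≤ p → p ≤ q → (σ q).2.2 e ⊆ (σ p).2.2 e := by
    intro p q hp hq
    induction q, hq using Nat.le_induction with
    | base => exact subset_rfl
    | succ q hq ih => exact ((hR q).2.2.1 e (act q (hp.trans hq))).trans ih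
  have keep := fun p => (hG (p + (e + 1))).1.keep e (act _ (Nat.le_add_left _ _))
  refine Or.inr ⟨fun p => ((σ (p + (e + 1))).2.1, Img e (PS (σ (p + (e + 1))).1
    (σ (p + (e + 1))).2.1)), fun p => ((hG _).1.pers e).isC _ (keep p),
    fun p => ⟨X, hX _, hAg⟩, fun g => ?_⟩
  have h1 := (hR (Nat.pair e g)).2.2.2.1
  rw [Nat.unpair_pair] at h1
  have h2 : e + 1 ≤ Nat.pair e g + 1 := Nat.succ_le_succ (Nat.left_le_pair e g)
  obtain ⟨E, hE, h3⟩ := h1 (act _ h2)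
  refine ⟨E, hE, eventually_atTop.2 ⟨Nat.pair e g, fun p hp => h3 (dec _ _ h2 ?_ (keep p))⟩⟩
  omega

/-- the represented sets are the sets defined on the numerals of a model -/
theorem op_df {T : LA.Theory} (hT : T.IsMaximal) (N : Type) [LA.Structure N] [Nonempty N]
    (hN : N ⊨ T) (A : CS) : A ∈ chi '' RepT T ↔ ∃ φ, df φ N = A := by
  constructor
  · rintro ⟨B, hB, rfl⟩
    obtain ⟨φ, h⟩ := (Pa.repT_iff hT hN B).1 hB
    exact ⟨φ, funext fun n => Bool.eq_iff_iff.2 (by rw [n_df, ← h]; simp [chi])⟩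
  · rintro ⟨φ, rfl⟩
    exact ⟨_, (Pa.repT_iff hT hN _).2 ⟨φ, fun n => n_df φ N n⟩, chi_eq _⟩

theorem op_le {T : LA.Theory} (hT : T.IsMaximal) (hPA : PA ⊆ T) {A B C : CS}
    (hA : A ∈ chi '' RepT T) (hB : B ∈ chi '' RepT T) (h : LeT C (jn A B)) :
    C ∈ chi '' RepT T := by
  obtain ⟨N⟩ := hT.1
  have hM := Pa.pm_of_model (N.is_model.mono hPA)
  rw [op_df hT N N.is_model] at hA hB ⊢
  obtain ⟨φ, rfl⟩ := hA
  obtain ⟨ψ, rfl⟩ := hB
  obtain ⟨χ, hχ⟩ := n_join φ ψ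
  rw [← hχ N hM] at h
  obtain ⟨S, h1, h2⟩ := h
  obtain ⟨ρ, hρ⟩ := n_rel0 χ (E := fun x n b => S x (n, b)) h1
  refine ⟨ρ, funext fun n => hρ N hM n (fun H => ?_) _ ((h2 (n, _)).2 rfl)⟩
  exact absurd (((h2 (n, true)).1 H.1).symm.trans ((h2 (n, false)).1 H.2)) (by simp)

theorem op_zz {T : LA.Theory} (hT : T.IsMaximal) : zz ∈ chi '' RepT T := by
  obtain ⟨N⟩ := hT.1
  rw [op_df hT N N.is_model]
  exact ⟨.fal, funext fun n => by simp [df, zz]⟩

theorem op_idl {T : LA.Theory} (hT : T.IsMaximal) (hPA : PA ⊆ T) : Idl (chi '' RepT T) := by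
  refine ⟨op_zz hT, fun A hA B hB => op_le hT hPA hA hB ?_, fun ζ A hA => op_le hT hPA hA hA ?_⟩
  · simpa using ((CM.id (α := Unit)).lf.rs CM.id.rt).leT (jn A B) ()
  · simpa using ((CM.id (α := List Bool)).lf.cat Computable.id).leT (jn A A) ζ

/-- the criterion over an enumeration of the represented sets -/
theorem yes_omega (sol : SolovayStmt) {T : LA.Theory} (hT : T.IsMaximal) (hPA : PA ⊆ T)
    (hTA : T ≠ TA) (hR : Set.range R = chi '' RepT T) (N : Type) [LA.Structure N] [Nonempty N]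
    (hN : N ⊨ T) (hx : ¬ ExcS R (th (PreLA N))) : Yes T := by
  have hJ : Idl (Set.range R) := hR ▸ op_idl hT hPA
  obtain ⟨goal, hg, hgoal⟩ := goalsS hJ (th (PreLA N)) hx
  obtain ⟨X, hX, ⟨S, h1, h2, h3⟩, hmin⟩ := op_construct hJ (TK (PreLA N))
    (fun k => hR ▸ ⟨_, paFacts.rep T hT hPA N hN k, chi_eq _⟩) goal hg
  have := Pa.infinite_of_model (hN.mono hPA)
  obtain ⟨M, hM, hMX⟩ := model_of_records sol N hX h1 h2 h3
  have hMT : @Theory.Model LA ℕ M T := @Pa.model_of_TK T N _ hT hN ℕ M hM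
  refine ⟨deg M, ⟨M, hMT, rfl⟩, ?_⟩
  rintro _ ⟨B, hB, rfl⟩ hlt
  rw [deg_eq, deg_eq] at hlt
  have hBM : LeT (dg B) (dg M) := LeT.of_turing hlt.le
  obtain ⟨e, he, hag⟩ := (hBM.trans hMX).exists_fun
  rcases hmin e _ he hag with ⟨A, hA, hle⟩ | ⟨c, k1, k2, k3⟩
  · have hAB : LeT A (dg B) := by
      rw [hR] at hA
      obtain ⟨A', hA', rfl⟩ := hA
      exact LeT.of_turing (paFacts.le T hT hPA hTA B hB A' hA')
    exact hlt.not_ge (show TuringReducible (hat (dg M)) (hat (dg B)) from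
      (hMX.trans (hle.trans (hAB.jn (LeT.refl _)))).turing)
  · obtain ⟨k, L, h⟩ := hgoal _ c k1 k2 k3
    apply h
    rw [preD_dg, ← TK_iff, ← TK_iff, @Pa.TK_eq T ℕ B hT hPA hB N _ hN k]

end Pool.Agent.MinDeg
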