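import Pool.Agent.P.MP_f8f34d_lc.O.Ar
import Pool.Agent.P.MP_f8f34d_lc.C.Run

/-! The relation `Leads` is uniformly arithmetical. -/

namespace Pool.Agent.MinDeg

open Pool.Agent.Lib.ComputableProp

theorem ar_iso : Ar fun X (w : Hp × ℕ) => Iso w.1 (lev w.1.1 X) w.2 := by
  have h1 := (hideeff_iso1.map (α := Hp × ℕ) (CM.id.lev (μ := fun w => w.1.1) (by fun_prop))
    Computable.id).ar
  have h2 := Ar.all (P := fun X (w : Hp × ℕ) (k : ℕ) =>
    ∀ Y ∈ UU w.1.1 w.1.2.2.1 (lev w.1.1 X), Y ∈ K w.2 → Br w.1 Y k → Y k = true)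
    (hideeff_iso2.map (α := (Hp × ℕ) × ℕ)
      (CM.id.lev (μ := fun u : (Hp × ℕ) × ℕ => u.1.1.1) (by fun_prop)) Computable.id).ar
  have h3 := Ar.all (P := fun X (w : Hp × ℕ) (k : ℕ) =>
    ∀ Y ∈ UU w.1.1 w.1.2.2.1 (lev w.1.1 X), Y ∈ K w.2 →
      ∀ Y' ∈ UU w.1.1 w.1.2.2.1 (lev w.1.1 X), Y' ∈ K w.2 →
      (∃ y, Ag w.1.2.2.2 Y y ∧ Ag w.1.2.2.2 Y' y) → Y k = Y' k)
    (hideeff_iso3.map (α := (Hp × ℕ) × ℕ)
      (CM.id.lev (μ := fun u : (Hp × ℕ) × ℕ => u.1.1.1) (by fun_prop)) Computable.id).ar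
  refine (h1.and (h2.and h3)).of_iff fun X w => and_congr Iff.rfl (and_congr ?_ ?_)
  · exact ⟨fun H Y a b k c => H k Y a b c, fun H k Y a b c => H Y a b k c⟩
  · exact ⟨fun H Y a b Y' a' b' c => funext fun k => H k Y a b Y' a' b' c,
      fun H k Y a b Y' a' b' c => congrFun (H Y a b Y' a' b' c) k⟩

theorem ar_hread : Ar fun X (w : Hp × ℕ × Tr3) => HRead w.1 X w.2 := by
  have hI := ar_iso
  have hN : Ar fun X (h : Hp) => NN h X :=
    Ar.all (P := fun X (h : Hp) (k : ℕ) => Br h X k → X k = true)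
      (Ar.imp (pii_Br (α := Hp × ℕ) CM.id (h := fun w => w.1) (k := fun w => w.2) (by fun_prop)
        (by fun_prop)).ar (Pii.bit (α := Hp × ℕ) CM.id (f := fun w => w.2)
        (g := fun _ => true) (by fun_prop) (by fun_prop)).ar)
  have hP : Ar fun X (w : Hp × ℕ × Tr3) => Pat w.1 X w.2.2.1 w.2.2.2.1 :=
    (pii_Pat (α := Hp × ℕ × Tr3) CM.id (h := fun w => w.1) (l := fun w => w.2.2.1)
      (s := fun w => w.2.2.2.1) (by fun_prop) (by fun_prop) (by fun_prop)).ar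
  have hF : Ar fun X (w : Hp × ℕ × Tr3) => Full w.1 (lev w.1.1 X) w.2.1 w.2.2 :=
    (pii_Full (α := Hp × ℕ × Tr3) (CM.id.lev (μ := fun w => w.1.1) (by fun_prop))
      (h := fun w => w.1) (v := fun w => w.2.1) (τ := fun w => w.2.2) (by fun_prop) (by fun_prop)
      (by fun_prop)).ar
  refine Ar.or (Ar.and (Ar.eq (f := fun w : Hp × ℕ × Tr3 => w.2.1) (g := fun _ => 0)
    (by fun_prop) (by fun_prop)).not (Ar.and (hN.comp (by fun_prop)) (Ar.and
      (hI.comp (f := fun w : Hp × ℕ × Tr3 => (w.1, w.2.1 - 1)) (by fun_prop))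
      (Ar.all (Ar.imp (Ar.lt (by fun_prop) (by fun_prop))
        (hI.comp (f := fun u : (Hp × ℕ × Tr3) × ℕ => (u.1.1, u.2)) (by fun_prop)).not)))))
    (Ar.and (Ar.eq (by fun_prop) (by fun_prop)) (Ar.and hP (Ar.and
      (hF.comp (f := fun w : Hp × ℕ × Tr3 => (w.1, (cnt w.2.2.1).unpair.2, w.2.2)) (by fun_prop))
      (Ar.all (Ar.imp (Ar.lt (by fun_prop) (by fun_prop)) (Ar.imp (Ar.eq (by fun_prop) (by fun_prop))
        (hF.comp (f := fun u : (Hp × ℕ × Tr3) × Tr3 => (u.1.1, (cnt u.1.2.2.1).unpair.2, u.2))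
          (by fun_prop)).not))))))

theorem ar_read : Ar fun X (w : St × ℕ × Tr3) => Read X w.1 w.2 := by
  have h : Computable fun w : St × ℕ × Tr3 => w.1 := Computable.fst
  have h1 : Computable fun w : St × ℕ × Tr3 => w.2.1 := c_fst Computable.snd
  have hD : Ar fun X (w : St × ℕ) => Dv w.1.mu w.1.ix w.1.ph (lev w.1.mu X) w.2 :=
    Ar.comp (f := fun w : St × ℕ => ((w.1.mu, w.1.ix, w.1.ph), w.2)) mach_pii_Dv.ar
      (((mach_c_mu Computable.fst).pair ((mach_c_ix Computable.fst).pair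
        (mach_c_ph Computable.fst))).pair Computable.snd)
  refine Ar.and (Ar.imp (Ar.eq (mach_c_mode h) (Computable.const _)) (Ar.or
    (Ar.and (Ar.eq h1 (Computable.const _)) ?_) (Ar.and (Ar.eq h1 (Computable.const _)).not
    (Ar.and ?_ ?_)))) (Ar.and (Ar.imp (Ar.eq (mach_c_mode h) (Computable.const _))
    (Ar.imp (Ar.mem (mach_c_own h) (mach_c_act h)) ?_))
    (Ar.imp (Ar.of_re (RE.le (Computable.const _) (mach_c_mode h)))
    (Ar.imp (Ar.eq (mach_c_todo h) (Computable.const _)).not ?_)))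
  · exact Ar.comp (f := fun w : St × ℕ × Tr3 => w.1)
      (Ar.all (P := fun X (s : St) n => ¬ Dv s.mu s.ix s.ph (lev s.mu X) n) hD.not) h
  · exact Ar.comp (f := fun w : St × ℕ × Tr3 => (w.1, w.2.1 - 1)) hD
      (h.pair (c_sub h1 (Computable.const 1)))
  · exact Ar.all (P := fun X (w : St × ℕ × Tr3) n => n < w.2.1 - 1 →
        ¬ Dv w.1.mu w.1.ix w.1.ph (lev w.1.mu X) n)
      (Ar.imp (Ar.lt Computable.snd ((c_sub h1 (Computable.const 1)).comp Computable.fst))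
        (Ar.comp (f := fun u : (St × ℕ × Tr3) × ℕ => (u.1.1, u.2)) hD.not
          ((c_fst Computable.fst).pair Computable.snd)))
  · exact Ar.comp (f := fun w : St × ℕ × Tr3 => (w.1.hA, w.2)) ar_hread
      ((mach_c_hA h).pair Computable.snd)
  · exact Ar.comp (f := fun w : St × ℕ × Tr3 => (w.1.hB, w.2)) ar_hread
      ((mach_c_hB h).pair Computable.snd)

theorem ar_rtg {α : Type} [Primcodable α] {R : CS → α → α → Prop}
    (h : Ar fun X (w : α × α) => R X w.1 w.2) :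
    Ar fun X (w : α × α) => Relation.ReflTransGen (R X) w.1 w.2 := by
  have H : Ar fun X (w : α × α) => ∃ L : List (α × α), (w.1 = w.2 ∨ ∃ a, (a, w.2) ∈ L) ∧
      ∀ (k : ℕ) (p : α × α), L[k]? = some p → R X p.1 p.2 ∧
        (p.1 = w.1 ∨ ∃ j, j < k ∧ ∃ a, L[j]? = some (a, p.1)) := by
    refine Ar.ex (Ar.and (Ar.or ?_ (Ar.ex (Ar.mem (by fun_prop) (by fun_prop)))) (Ar.all (Ar.all
      (Ar.imp ?_ (Ar.and (h.comp Computable.snd) (Ar.or ?_ (Ar.ex (Ar.and
        (Ar.lt (by fun_prop) (by fun_prop)) (Ar.ex ?_)))))))))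
    all_goals exact Ar.eq (by fun_prop) (by fun_prop)
  refine H.of_iff fun X w => ⟨?_, fun r => ?_⟩
  · rintro ⟨L, h1, h2⟩
    have key : ∀ (k : ℕ) p, L[k]? = some p → Relation.ReflTransGen (R X) w.1 p.2 := fun k => by
      induction k using Nat.strong_induction_on with
      | _ k ih =>
        intro p hp
        obtain ⟨k1, k2 | ⟨j, hj, a, k2⟩⟩ := h2 k p hp
        · exact Relation.ReflTransGen.single (k2 ▸ k1)
        · exact (ih j hj _ k2).tail k1
    rcases h1 with h1 | ⟨a, h1⟩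
    · exact h1 ▸ Relation.ReflTransGen.refl
    · obtain ⟨k, hk⟩ := List.mem_iff_getElem?.1 h1
      exact key k (a, w.2) hk
  · obtain ⟨a, b⟩ := w
    dsimp only at r ⊢
    induction r with
    | refl => exact ⟨[], Or.inl rfl, by simp⟩
    | @tail b c _ r ih =>
      obtain ⟨L, h1, h2⟩ := ih
      refine ⟨L ++ [(b, c)], Or.inr ⟨b, by simp⟩, fun k p hp => ?_⟩
      have up : ∀ {j : ℕ} {q}, L[j]? = some q → (L ++ [(b, c)])[j]? = some q := fun e => by
        rw [List.getElem?_append_left (List.getElem?_eq_some_iff.1 e).1, e]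
      by_cases hk : k < L.length
      · rw [List.getElem?_append_left hk] at hp
        exact ⟨(h2 k p hp).1, (h2 k p hp).2.imp_right fun ⟨j, c1, a, c2⟩ => ⟨j, c1, a, up c2⟩⟩
      · rw [List.getElem?_append_right (by omega)] at hp
        obtain rfl : p = (b, c) := by simpa using List.mem_of_getElem? hp
        refine ⟨r, h1.imp Eq.symm fun ⟨a', c1⟩ => ?_⟩
        obtain ⟨j, hj⟩ := List.mem_iff_getElem?.1 c1
        exact ⟨j, by have := (List.getElem?_eq_some_iff.1 hj).1; omega, a', up hj⟩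

theorem ar_run : Ar fun X (w : St × St) => Relation.ReflTransGen (Step X) w.1 w.2 :=
  ar_rtg (Ar.ex (P := fun X (w : St × St) (d : ℕ × Tr3) => Read X w.1 d ∧ w.2 = nx w.1 d)
    (Ar.and (Ar.comp (f := fun u : (St × St) × ℕ × Tr3 => (u.1.1, u.2)) ar_read
        ((c_fst Computable.fst).pair Computable.snd))
      (Ar.eq (f := fun u : (St × St) × ℕ × Tr3 => u.1.2)
        (g := fun u : (St × St) × ℕ × Tr3 => nx u.1.1 u.2) (c_snd Computable.fst)
        (mach_c_nx (c_fst Computable.fst) Computable.snd))))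

theorem ar_leads : Ar fun z (w : St × St) =>
    Leads w.1 (lf z) w.2 (rt z) ∧ (PS w.2 (rt z)).Nonempty := by
  have p1 : Pii fun z (w : St × St) => rt z ∈ PS w.2 (rt (lf z)) :=
    pii_UU CM.id.rt CM.id.lf.rt (mach_c_mu Computable.snd) (mach_c_ix Computable.snd)
  have p2 : Pii fun z (w : St × St) => rt z ∈ PS w.1 (lf (lf z)) :=
    pii_UU CM.id.rt CM.id.lf.lf (mach_c_mu Computable.fst) (mach_c_ix Computable.fst)
  have hl := af_lm (P := fun z V (w : St × St) => V ∈ PS w.2 (rt z)) p1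
  refine (((p1.ar.and p2.ar).mapA (CM.id.af.jn hl) Computable.id).and
    (ar_run.mapA hl Computable.id)).of_iff fun z w => ?_
  simp only [lf_jn, rt_jn, id]
  constructor
  · rintro ⟨⟨k1, k2⟩, k3⟩
    refine ⟨⟨fun X' h' => ?_, fun X' h' => ?_⟩, _, k1⟩
    · obtain ⟨-, b, c⟩ := run_tr k3 h'.1 (h'.2.trans k1.2.symm)
      exact ⟨b, c.trans k2.2⟩
    · exact (run_tr k3 h'.1 (h'.2.trans k1.2.symm)).1
  · rintro ⟨h, hn⟩
    have k := (lm_spec (consE_closed w.2 (rt z)) hn).1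
    exact ⟨⟨k, h.1 k⟩, h.2 _ k⟩

end Pool.Agent.MinDeg
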